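import Mathlib

/-!
Ball carving in graphs of polynomial growth (helper file only).
-/

namespace Pool.Agent.P.MP_ca07c0_co.Neg

open Finset

open Classical in
theorem carve {β : Type*} [DecidableEq β] (B : β → ℕ → β → Prop) (adj : β → β → Prop)
    (hsymm : ∀ x y, adj x y → adj y x) (hself : ∀ x, B x 0 x)
    (hmono : ∀ x L y, B x L y → B x (L + 1) y)
    (hadj : ∀ x L y z, B x L y → adj y z → B x (L + 1) z) (L0 : ℕ) {ε : ℝ} (hε : 0 ≤ ε)
    (hgrow : ∀ x (V : Finset β), (∀ y ∈ V, B x L0 y) → (V.card : ℝ) < (1 + ε) ^ L0)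
    (U : Finset β) :
    ∃ J ⊆ U, ∃ cell : β → β, (J.card : ℝ) ≤ ε * U.card ∧ (∀ y ∈ U \ J, B (cell y) L0 y) ∧
      ∀ y ∈ U \ J, ∀ z ∈ U \ J, adj y z → cell y = cell z := by
  have hm : ∀ x L L' y, L ≤ L' → B x L y → B x L' y := fun x L L' y h hy => by
    induction h with
    | refl => exact hy
    | step _ ih => exact hmono _ _ _ ih
  induction U using Finset.strongInduction with
  | H U ih =>
  rcases U.eq_empty_or_nonempty with rfl | ⟨x, hx⟩
  · exact ⟨∅, Subset.rfl, id, by simp, by simp, by simp⟩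
  have hL : ∃ L < L0, ((U.filter (B x (L + 1))).card : ℝ) ≤
      (1 + ε) * (U.filter (B x L)).card := by
    by_contra hc
    push Not at hc
    have : ∀ L ≤ L0, (1 + ε) ^ L ≤ ((U.filter (B x L)).card : ℝ) := fun L => by
      induction L with
      | zero =>
        intro _
        rw [pow_zero]
        exact_mod_cast card_pos.2 ⟨x, mem_filter.2 ⟨hx, hself x⟩⟩
      | succ L ihL =>
        intro h
        have h1 := ihL (by omega)
        have h2 := hc L (by omega)
        rw [pow_succ']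
        exact (mul_le_mul_of_nonneg_left h1 (by linarith)).trans h2.le
    exact absurd (this L0 le_rfl) (not_le.2 (hgrow x _ fun y hy => (mem_filter.1 hy).2))
  obtain ⟨L, hL0, hL⟩ := hL
  set U' := U.filter fun y => ¬ B x (L + 1) y with hU'
  have hss : U' ⊂ U := by
    refine ⟨filter_subset _ _, fun h => ?_⟩
    exact (mem_filter.1 (h hx)).2 (hm x 0 _ x (Nat.zero_le _) (hself x))
  obtain ⟨J', hJ', cell', c1, c2, c3⟩ := ih U' hss
  set Sh := U.filter (B x (L + 1)) \ U.filter (B x L) with hSh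
  have key : ∀ y ∈ U \ (J' ∪ Sh), ¬ B x L y → y ∈ U' \ J' := fun y hy h => by
    obtain ⟨h1, h2⟩ := mem_sdiff.1 hy
    rw [mem_union, not_or] at h2
    refine mem_sdiff.2 ⟨mem_filter.2 ⟨h1, fun h3 => h2.2 ?_⟩, h2.1⟩
    exact mem_sdiff.2 ⟨mem_filter.2 ⟨h1, h3⟩, fun h4 => h (mem_filter.1 h4).2⟩
  have key2 : ∀ y, ∀ z ∈ U \ (J' ∪ Sh), B x L y → adj y z → B x L z := fun y z hz h1 h2 => by
    by_contra h
    exact (mem_filter.1 (mem_sdiff.1 (key z hz h)).1).2 (hadj _ _ _ _ h1 h2)
  refine ⟨J' ∪ Sh, union_subset (hJ'.trans hss.1) (sdiff_subset.trans (filter_subset _ _)),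
    fun y => if B x L y then x else cell' y, ?_, fun y hy => ?_, fun y hy z hz h => ?_⟩
  · have a1 : U.filter (B x L) ⊆ U.filter (B x (L + 1)) := fun y hy =>
      mem_filter.2 ⟨(mem_filter.1 hy).1, hmono _ _ _ (mem_filter.1 hy).2⟩
    have a2 := card_sdiff_add_card_eq_card a1
    have a3 := card_filter_add_card_filter_not (s := U) (B x (L + 1))
    have a4 := card_union_le J' Sh
    have a5 := card_le_card a1
    have b2 : (Sh.card : ℝ) + (U.filter (B x L)).card = (U.filter (B x (L + 1))).card := by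
      exact_mod_cast a2
    have b3 : ((U.filter (B x (L + 1))).card : ℝ) + U'.card = U.card := by exact_mod_cast a3
    have b4 : ((J' ∪ Sh).card : ℝ) ≤ J'.card + Sh.card := by exact_mod_cast a4
    have b5 : ((U.filter (B x L)).card : ℝ) ≤ (U.filter (B x (L + 1))).card := by
      exact_mod_cast a5
    have b6 := mul_le_mul_of_nonneg_left b5 hε
    rw [← b3]
    linarith
  · by_cases h : B x L y
    · simp only [h, if_true]
      exact hm _ _ _ _ hL0.le h
    · simp only [h, if_false]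
      exact c2 y (key y hy h)
  · by_cases h1 : B x L y
    · simp only [h1, key2 y z hz h1 h, if_true]
    · have h2 : ¬ B x L z := fun h2 => h1 (key2 z y hy h2 (hsymm _ _ h))
      simp only [h1, h2, if_false]
      exact c3 y (key y hy h1) z (key z hz h2) h

/-- bounded integer combinations of the generators -/
def InR (Gen : Finset ℤ) (L : ℕ) (r : ℤ) : Prop :=
  ∃ c : ℤ → ℤ, (∀ g, |c g| ≤ L) ∧ r = ∑ g ∈ Gen, c g * g

theorem InR.zero (Gen : Finset ℤ) (L : ℕ) : InR Gen L 0 :=
  ⟨fun _ => 0, fun _ => by simp, by simp⟩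

theorem InR.neg {Gen : Finset ℤ} {L : ℕ} {r : ℤ} (h : InR Gen L r) : InR Gen L (-r) := by
  obtain ⟨c, h1, h2⟩ := h
  exact ⟨fun g => -c g, fun g => by simpa using h1 g, by simp [h2]⟩

theorem InR.add {Gen : Finset ℤ} {L L' : ℕ} {r r' : ℤ} (h : InR Gen L r) (h' : InR Gen L' r') :
    InR Gen (L + L') (r + r') := by
  obtain ⟨c, h1, h2⟩ := h
  obtain ⟨c', h1', h2'⟩ := h'
  refine ⟨fun g => c g + c' g, fun g => (abs_add_le _ _).trans ?_, ?_⟩
  · push_cast
    exact add_le_add (h1 g) (h1' g)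
  · simp only [h2, h2', add_mul, sum_add_distrib]

theorem InR.gen {Gen : Finset ℤ} {g : ℤ} (h : g ∈ Gen) : InR Gen 1 g := by
  refine ⟨fun a => if a = g then 1 else 0, fun a => ?_, ?_⟩
  · by_cases h : a = g <;> simp [h]
  · simp [h]

theorem InR_card (Gen : Finset ℤ) (L : ℕ) :
    ∃ R : Finset ℤ, R.card ≤ (2 * L + 1) ^ Gen.card ∧ ∀ r, InR Gen L r → r ∈ R := by
  induction Gen using Finset.induction_on with
  | empty =>
    refine ⟨{0}, by simp, fun r ⟨c, _, h⟩ => ?_⟩
    simp [h]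
  | insert g Gen hg ih =>
    obtain ⟨R, h1, h2⟩ := ih
    refine ⟨image₂ (fun a r => a * g + r) (Icc (-L : ℤ) L) R, ?_, fun r ⟨c, h3, h4⟩ => ?_⟩
    · refine (card_image₂_le _ _ _).trans ?_
      rw [card_insert_of_notMem hg, pow_succ', Int.card_Icc]
      exact Nat.mul_le_mul (by omega) h1
    · rw [sum_insert hg] at h4
      exact mem_image₂.2 ⟨c g, mem_Icc.2 (abs_le.1 (h3 g)), _, h2 _ ⟨c, h3, rfl⟩, h4.symm⟩

theorem exists_radius (D : ℕ) {ε : ℝ} (hε : 0 < ε) :
    ∃ L : ℕ, (2 : ℝ) * (2 * L + 1) ^ D < (1 + ε) ^ L := by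
  have h := tendsto_pow_const_div_const_pow_of_one_lt D (by linarith : 1 < 1 + ε)
  have h1 := h.eventually (gt_mem_nhds (by positivity : (0 : ℝ) < 1 / (2 * 3 ^ D)))
  obtain ⟨L, h2, h3⟩ := (h1.and (Filter.eventually_ge_atTop 1)).exists
  refine ⟨L, ?_⟩
  have h4 : (1 : ℝ) ≤ L := by exact_mod_cast h3
  rw [div_lt_div_iff₀ (by positivity) (by positivity)] at h2
  have h5 : ((2 : ℝ) * L + 1) ^ D ≤ (3 * L) ^ D := pow_le_pow_left₀ (by positivity) (by linarith) _
  rw [mul_pow] at h5
  linarith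

theorem carve_int (D : ℕ) {ε : ℝ} (hε : 0 < ε) :
    ∃ Rb : ℕ, ∀ Δ Sg U : Finset ℤ, (Δ ∪ Sg).card ≤ D → ∃ J ⊆ U, ∃ cell : ℤ → ℤ,
      ∃ R : Finset ℤ, (J.card : ℝ) ≤ ε * U.card ∧ R.card ≤ Rb ∧
      (∀ y ∈ U \ J, ∀ z ∈ U \ J, (y - z ∈ Δ ∨ y + z ∈ Sg) → cell y = cell z) ∧
      ∀ y ∈ U \ J, ∀ z ∈ U \ J, cell y = cell z → y - z ∈ R ∨ y + z ∈ R := by
  classical
  obtain ⟨L0, hL0⟩ := exists_radius D hε
  refine ⟨(2 * (L0 + L0) + 1) ^ D, fun Δ Sg U hD => ?_⟩
  obtain ⟨R0, r1, r2⟩ := InR_card (Δ ∪ Sg) L0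
  obtain ⟨R, r3, r4⟩ := InR_card (Δ ∪ Sg) (L0 + L0)
  obtain ⟨J, hJ, cell, c1, c2, c3⟩ := carve
    (fun x L y => InR (Δ ∪ Sg) L (y - x) ∨ InR (Δ ∪ Sg) L (y + x))
    (fun y z => y - z ∈ Δ ∨ z - y ∈ Δ ∨ y + z ∈ Sg)
    (fun x y h => by rw [add_comm y x]; tauto)
    (fun x => Or.inl (by rw [sub_self]; exact InR.zero _ _))
    (fun x L y h => h.imp (fun h => by simpa using h.add (InR.zero _ 1))
      fun h => by simpa using h.add (InR.zero _ 1))
    (fun x L y z h h' => by
      rcases h' with h' | h' | h'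
      · have g := (InR.gen (mem_union_left Sg h')).neg
        refine h.imp (fun h => ?_) fun h => ?_
        · convert h.add g using 1
          ring
        · convert h.add g using 1
          ring
      · have g := InR.gen (mem_union_left Sg h')
        refine h.imp (fun h => ?_) fun h => ?_
        · convert h.add g using 1
          ring
        · convert h.add g using 1
          ring
      · have g := InR.gen (mem_union_right Δ h')
        refine h.symm.imp (fun h => ?_) fun h => ?_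
        · convert h.neg.add g using 1
          ring
        · convert h.neg.add g using 1
          ring) L0 hε.le
    (fun x V hV => by
      refine lt_of_le_of_lt ?_ hL0
      have a1 : V ⊆ R0.image (fun r => r + x) ∪ R0.image (fun r => r - x) := fun y hy => by
        rcases hV y hy with h | h
        · exact mem_union_left _ (mem_image.2 ⟨_, r2 _ h, by ring⟩)
        · exact mem_union_right _ (mem_image.2 ⟨_, r2 _ h, by ring⟩)
      have a2 := (card_le_card a1).trans ((card_union_le _ _).trans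
        (Nat.add_le_add card_image_le card_image_le))
      have a3 : (2 * L0 + 1) ^ (Δ ∪ Sg).card ≤ (2 * L0 + 1) ^ D :=
        Nat.pow_le_pow_right (by omega) hD
      have a4 : V.card ≤ 2 * (2 * L0 + 1) ^ D := by omega
      exact_mod_cast a4) U
  refine ⟨J, hJ, cell, R, c1, r3.trans (Nat.pow_le_pow_right (by omega) hD),
    fun y hy z hz h => c3 y hy z hz (by tauto), fun y hy z hz h => ?_⟩
  have a := c2 y hy
  have b := c2 z hz
  rw [← h] at b
  rcases a with a | a <;> rcases b with b | b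
  · exact Or.inl (r4 _ (by convert a.add b.neg using 1; ring))
  · exact Or.inr (r4 _ (by convert a.add b using 1; ring))
  · exact Or.inr (r4 _ (by convert a.add b using 1; ring))
  · exact Or.inl (r4 _ (by convert a.add b.neg using 1; ring))

end Pool.Agent.P.MP_ca07c0_co.Neg
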