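import Mathlib

/-!
A container lemma for down-closed families with witnesses of size at most four, proved with the
hard-core partition function (helper file only).
-/

namespace Pool.Agent.P.MP_ca07c0_co.Neg

open Finset

variable {α : Type*} [DecidableEq α]

open Classical in
/-- hard-core weight of `X` on top of `S` -/
noncomputable def wt (Ind : Finset α → Prop) (lam : ℝ) (S X : Finset α) : ℝ :=
  if Ind (S ∪ X) then lam ^ X.card else 0

/-- partition function -/
noncomputable def Zf (Ind : Finset α → Prop) (lam : ℝ) (S C : Finset α) : ℝ :=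
  ∑ X ∈ C.powerset, wt Ind lam S X

/-- every small dependent subset of `C` contains a member of a light family `G` -/
def Cover (Ind : Finset α → Prop) (C : Finset α) (δ lam : ℝ) : Prop :=
  ∃ G : Finset (Finset α),
    (∀ E ⊆ C, E.card ≤ 4 → ¬ Ind E → ∃ T ∈ G, T ⊆ E ∧ T.Nonempty) ∧
    ∀ j ≤ 3, ((G.filter fun T => T.card = j + 1).card : ℝ) * (lam / 4) ^ j ≤ 4 * δ * C.card

open Classical in
/-- minimal blocked sets of size `j` -/
noncomputable def minB (Ind : Finset α → Prop) (S C X : Finset α) (j : ℕ) : Finset (Finset α) :=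
  (C.powersetCard j).filter fun T => ¬ Ind (S ∪ X ∪ T) ∧ ∀ a ∈ T, Ind (S ∪ X ∪ T.erase a)

variable {Ind : Finset α → Prop} {lam δ : ℝ}

theorem wt_nonneg (hl : 0 ≤ lam) (S X : Finset α) : 0 ≤ wt Ind lam S X := by
  unfold wt
  split_ifs
  · positivity
  · exact le_rfl

theorem wt_le (hl : 0 ≤ lam) (S X : Finset α) : wt Ind lam S X ≤ lam ^ X.card := by
  unfold wt
  split_ifs
  · exact le_rfl
  · positivity

theorem Zf_nonneg (hl : 0 ≤ lam) (S C : Finset α) : 0 ≤ Zf Ind lam S C :=
  sum_nonneg fun _ _ => wt_nonneg hl _ _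

theorem one_le_Zf (hl : 0 ≤ lam) {S : Finset α} (hS : Ind S) (C : Finset α) :
    1 ≤ Zf Ind lam S C := by
  have h : wt Ind lam S ∅ = 1 := by simp [wt, hS]
  rw [← h]
  exact single_le_sum (f := fun X => wt Ind lam S X) (fun _ _ => wt_nonneg hl _ _)
    (empty_mem_powerset C)

theorem Zf_le (hl : 0 ≤ lam) (S C : Finset α) : Zf Ind lam S C ≤ (1 + lam) ^ C.card := by
  calc Zf Ind lam S C ≤ ∑ X ∈ C.powerset, lam ^ X.card := sum_le_sum fun X _ => wt_le hl _ _
    _ = (1 + lam) ^ C.card := by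
      have := Finset.prod_one_add (s := C) (f := fun _ => lam)
      simp only [prod_const] at this
      exact this.symm

theorem Zf_erase_le (hl : 0 ≤ lam) (S C : Finset α) (v : α) :
    Zf Ind lam S (C.erase v) ≤ Zf Ind lam S C :=
  sum_le_sum_of_subset_of_nonneg (powerset_mono.2 (erase_subset v C))
    fun _ _ _ => wt_nonneg hl _ _

open Classical in
theorem sum_unblocked (hmono : ∀ A B, A ⊆ B → Ind B → Ind A) (S C : Finset α) {v : α}
    (hv : v ∈ C) :
    ∑ X ∈ C.powerset, (if Ind (S ∪ X ∪ {v}) then wt Ind lam S X else 0) =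
      (1 + lam) * Zf Ind lam (insert v S) (C.erase v) := by
  have hC : C = insert v (C.erase v) := (insert_erase hv).symm
  conv_lhs => rw [hC]
  rw [sum_powerset_insert (notMem_erase v C), Zf, mul_sum, ← sum_add_distrib]
  refine sum_congr rfl fun Y hY => ?_
  have hvY : v ∉ Y := fun h => notMem_erase v C (mem_powerset.1 hY h)
  have e1 : S ∪ Y ∪ {v} = insert v S ∪ Y := by
    ext x
    simp only [mem_union, mem_singleton, mem_insert]
    tauto
  have e2 : S ∪ insert v Y ∪ {v} = insert v S ∪ Y := by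
    ext x
    simp only [mem_union, mem_singleton, mem_insert]
    tauto
  have e3 : S ∪ insert v Y = insert v S ∪ Y := by
    ext x
    simp only [mem_union, mem_insert]
    tauto
  rw [e1, e2]
  unfold wt
  rw [e3]
  by_cases h : Ind (insert v S ∪ Y)
  · have h' : Ind (S ∪ Y) := hmono _ _ (union_subset_union (subset_insert v S) Subset.rfl) h
    simp only [h, h', if_true, card_insert_of_notMem hvY]
    ring
  · simp only [h, if_false]
    ring

theorem sum_minB_one (hmono : ∀ A B, A ⊆ B → Ind B → Ind A) (hl : 0 ≤ lam) (S C : Finset α)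
    (hstop : ∀ v ∈ C, (1 - δ) * Zf Ind lam S C ≤ (1 + lam) * Zf Ind lam (insert v S) (C.erase v)) :
    ∑ X ∈ C.powerset, wt Ind lam S X * (minB Ind S C X 1).card ≤ δ * C.card * Zf Ind lam S C := by
  classical
  have h1 : ∀ X, ((minB Ind S C X 1).card : ℝ) ≤
      ∑ v ∈ C, (if Ind (S ∪ X ∪ {v}) then 0 else 1 : ℝ) := fun X => by
    have : minB Ind S C X 1 ⊆ (C.filter fun v => ¬ Ind (S ∪ X ∪ {v})).image fun v => {v} := by
      intro T hT
      simp only [minB, mem_filter, mem_powersetCard] at hT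
      obtain ⟨v, rfl⟩ := card_eq_one.1 hT.1.2
      exact mem_image.2 ⟨v, mem_filter.2 ⟨hT.1.1 (mem_singleton_self v), hT.2.1⟩, rfl⟩
    have h2 := (card_le_card this).trans card_image_le
    rw [card_filter] at h2
    have h3 : ((minB Ind S C X 1).card : ℝ) ≤
        ((∑ v ∈ C, if ¬ Ind (S ∪ X ∪ {v}) then 1 else 0 : ℕ) : ℝ) := by exact_mod_cast h2
    refine h3.trans (le_of_eq ?_)
    push_cast
    refine sum_congr rfl fun v _ => ?_
    by_cases h : Ind (S ∪ X ∪ {v}) <;> simp only [h, if_true, if_false, not_true, not_false_iff]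
  calc ∑ X ∈ C.powerset, wt Ind lam S X * (minB Ind S C X 1).card
      ≤ ∑ X ∈ C.powerset, ∑ v ∈ C, (wt Ind lam S X -
          if Ind (S ∪ X ∪ {v}) then wt Ind lam S X else 0) := by
        refine sum_le_sum fun X _ => ?_
        refine (mul_le_mul_of_nonneg_left (h1 X) (wt_nonneg hl _ _)).trans (le_of_eq ?_)
        rw [mul_sum]
        refine sum_congr rfl fun v _ => ?_
        by_cases h : Ind (S ∪ X ∪ {v}) <;> simp only [h, if_true, if_false] <;> ring
    _ = ∑ v ∈ C, (Zf Ind lam S C - (1 + lam) * Zf Ind lam (insert v S) (C.erase v)) := by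
        rw [sum_comm]
        refine sum_congr rfl fun v hv => ?_
        rw [sum_sub_distrib, sum_unblocked hmono S C hv]
        rfl
    _ ≤ ∑ _v ∈ C, δ * Zf Ind lam S C := sum_le_sum fun v hv => by linarith [hstop v hv]
    _ = δ * C.card * Zf Ind lam S C := by
        rw [sum_const, nsmul_eq_mul]
        ring

open Classical in
theorem card_pivotal (hmono : ∀ A B, A ⊆ B → Ind B → Ind A)
    (hloc : ∀ Y, ¬ Ind Y → ∃ E ⊆ Y, E.card ≤ 4 ∧ ¬ Ind E) (S X T : Finset α)
    (hb : ¬ Ind (S ∪ X ∪ T)) :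
    (X.filter fun a => Ind (S ∪ X.erase a ∪ T)).card ≤ 4 := by
  obtain ⟨E, hE, h4, hn⟩ := hloc _ hb
  refine (card_le_card fun a ha => ?_).trans h4
  by_contra haE
  refine hn (hmono _ _ (fun x hx => ?_) (mem_filter.1 ha).2)
  have hx' := hE hx
  have hne : x ≠ a := fun h => haE (h ▸ hx)
  simp only [mem_union, mem_erase] at hx' ⊢
  tauto

theorem sum_minB_succ (hmono : ∀ A B, A ⊆ B → Ind B → Ind A)
    (hloc : ∀ Y, ¬ Ind Y → ∃ E ⊆ Y, E.card ≤ 4 ∧ ¬ Ind E) (hl : 0 ≤ lam) (S C : Finset α)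
    {j : ℕ} (hj : 1 ≤ j) :
    lam * ∑ X ∈ C.powerset, wt Ind lam S X * (minB Ind S C X (j + 1)).card ≤
      4 * ∑ X ∈ C.powerset, wt Ind lam S X * (minB Ind S C X j).card := by
  classical
  set A : Finset (Σ _ : Finset α, Σ _ : Finset α, α) :=
    C.powerset.sigma fun X => (minB Ind S C X (j + 1)).sigma fun T => T with hA
  set B : Finset (Σ _ : Finset α, Σ _ : Finset α, α) :=
    C.powerset.sigma fun X => (minB Ind S C X j).sigma fun T =>
      X.filter fun a => Ind (S ∪ X.erase a ∪ T) with hB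
  set φ : (Σ _ : Finset α, Σ _ : Finset α, α) → (Σ _ : Finset α, Σ _ : Finset α, α) :=
    fun q => ⟨insert q.2.2 q.1, q.2.1.erase q.2.2, q.2.2⟩ with hφ
  have key : ∀ q ∈ A, q.2.2 ∉ q.1 ∧ q.2.2 ∈ q.2.1 ∧ φ q ∈ B ∧
      Ind (S ∪ insert q.2.2 q.1) := by
    rintro ⟨X, T, a⟩ hq
    simp only [hA, mem_sigma, mem_powerset, minB, mem_filter, mem_powersetCard] at hq
    obtain ⟨hX, ⟨⟨hTC, hTc⟩, hTb, hTm⟩, haT⟩ := hq
    have haX : a ∉ X := fun h => by
      refine hTb (hmono _ _ (fun x hx => ?_) (hTm a haT))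
      by_cases hxa : x = a
      · simp [hxa, h]
      · simp only [mem_union, mem_erase] at hx ⊢
        tauto
    have hce : (T.erase a).card = j := by rw [card_erase_of_mem haT, hTc]; rfl
    refine ⟨haX, haT, ?_, ?_⟩
    · simp only [hB, hφ, mem_sigma, mem_powerset, minB, mem_filter, mem_powersetCard]
      refine ⟨insert_subset (hTC haT) hX, ⟨⟨(erase_subset a T).trans hTC, hce⟩, ?_, ?_⟩,
        mem_insert_self _ _, ?_⟩
      · intro h
        refine hTb (hmono _ _ (fun x hx => ?_) h)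
        by_cases hxa : x = a
        · simp [hxa]
        · simp only [mem_union, mem_erase, mem_insert] at hx ⊢
          tauto
      · intro b hb
        refine hmono _ _ (fun x hx => ?_) (hTm b (mem_of_mem_erase hb))
        have hba : a ≠ b := fun h => (mem_erase.1 hb).1 h.symm
        by_cases hxa : x = a
        · simp [hxa, hba, haT]
        · simp only [mem_union, mem_erase, mem_insert] at hx ⊢
          tauto
      · rw [erase_insert haX]
        exact hTm a haT
    · obtain ⟨b, hb⟩ : (T.erase a).Nonempty := card_pos.1 (by omega)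
      refine hmono _ _ (fun x hx => ?_) (hTm b (mem_of_mem_erase hb))
      have hba : a ≠ b := fun h => (mem_erase.1 hb).1 h.symm
      by_cases hxa : x = a
      · simp [hxa, hba, haT]
      · simp only [mem_union, mem_erase, mem_insert] at hx ⊢
        tauto
  have hinj : Set.InjOn φ A := by
    rintro ⟨X, T, a⟩ hq ⟨X', T', a'⟩ hq' h
    obtain ⟨h1, h2, -, -⟩ := key _ hq
    obtain ⟨h1', h2', -, -⟩ := key _ hq'
    simp only [hφ, Sigma.mk.injEq, heq_eq_eq] at h h1 h2 h1' h2'
    obtain ⟨e1, e2, rfl⟩ := h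
    have f1 : X = X' := by rw [← erase_insert h1, e1, erase_insert h1']
    have f2 : T = T' := by rw [← insert_erase h2, e2, insert_erase h2']
    rw [f1, f2]
  calc lam * ∑ X ∈ C.powerset, wt Ind lam S X * (minB Ind S C X (j + 1)).card
      ≤ ∑ q ∈ A, lam * wt Ind lam S q.1 := by
        rw [hA, sum_sigma, mul_sum]
        refine sum_le_sum fun X _ => ?_
        rw [sum_sigma]
        have hw : 0 ≤ lam * wt Ind lam S X := mul_nonneg hl (wt_nonneg hl _ _)
        calc lam * (wt Ind lam S X * (minB Ind S C X (j + 1)).card)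
            = ∑ _T ∈ minB Ind S C X (j + 1), lam * wt Ind lam S X := by
              rw [sum_const, nsmul_eq_mul]
              ring
          _ ≤ _ := by
              refine sum_le_sum fun T hT => ?_
              simp only [minB, mem_filter, mem_powersetCard] at hT
              dsimp only
              rw [sum_const, nsmul_eq_mul, hT.1.2]
              push_cast
              nlinarith [Nat.cast_nonneg (α := ℝ) j]
    _ ≤ ∑ q ∈ A, wt Ind lam S (φ q).1 := by
        refine sum_le_sum fun q hq => ?_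
        obtain ⟨h1, -, -, h4⟩ := key q hq
        have : wt Ind lam S (φ q).1 = lam * lam ^ q.1.card := by
          simp only [hφ, wt, h4, if_true, card_insert_of_notMem h1]
          ring
        rw [this]
        exact mul_le_mul_of_nonneg_left (wt_le hl _ _) hl
    _ = ∑ q ∈ A.image φ, wt Ind lam S q.1 := by rw [sum_image hinj]
    _ ≤ ∑ q ∈ B, wt Ind lam S q.1 := by
        refine sum_le_sum_of_subset_of_nonneg (fun q hq => ?_) fun _ _ _ => wt_nonneg hl _ _
        obtain ⟨q', hq', rfl⟩ := mem_image.1 hq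
        exact (key q' hq').2.2.1
    _ ≤ 4 * ∑ X ∈ C.powerset, wt Ind lam S X * (minB Ind S C X j).card := by
        rw [hB, sum_sigma, mul_sum]
        refine sum_le_sum fun X _ => ?_
        rw [sum_sigma]
        have hw := wt_nonneg (Ind := Ind) hl S X
        calc _ ≤ ∑ _T ∈ minB Ind S C X j, 4 * wt Ind lam S X := by
              refine sum_le_sum fun T hT => ?_
              simp only [minB, mem_filter] at hT
              dsimp only
              rw [sum_const, nsmul_eq_mul]
              refine mul_le_mul_of_nonneg_right ?_ hw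
              exact_mod_cast card_pivotal hmono hloc S X T hT.2.1
          _ = _ := by
              rw [sum_const, nsmul_eq_mul]
              ring

theorem exists_minB (hmono : ∀ A B, A ⊆ B → Ind B → Ind A) {S C X : Finset α}
    (hX : Ind (S ∪ X)) {E : Finset α} (hE : E ⊆ C) (hn : ¬ Ind E) :
    ∃ T ⊆ E, T.Nonempty ∧ T ∈ minB Ind S C X T.card := by
  classical
  obtain ⟨T, hT, hmin⟩ := exists_min_image (E.powerset.filter fun T => ¬ Ind (S ∪ X ∪ T))
    Finset.card ⟨E, mem_filter.2 ⟨mem_powerset_self E, fun h =>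
      hn (hmono _ _ subset_union_right h)⟩⟩
  obtain ⟨h1, h2⟩ := mem_filter.1 hT
  have h1' := mem_powerset.1 h1
  refine ⟨T, h1', ?_, ?_⟩
  · rw [nonempty_iff_ne_empty]
    rintro rfl
    exact h2 (by rwa [union_empty])
  · simp only [minB, mem_filter, mem_powersetCard]
    refine ⟨⟨h1'.trans hE, trivial⟩, h2, fun a ha => ?_⟩
    by_contra hc
    have := hmin (T.erase a) (mem_filter.2 ⟨mem_powerset.2 ((erase_subset a T).trans h1'), hc⟩)
    have h3 := card_erase_lt_of_mem ha
    omega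

theorem cover_of_stop (hmono : ∀ A B, A ⊆ B → Ind B → Ind A)
    (hloc : ∀ Y, ¬ Ind Y → ∃ E ⊆ Y, E.card ≤ 4 ∧ ¬ Ind E) (hl : 0 ≤ lam) {S : Finset α}
    (hS : Ind S) (C : Finset α)
    (hstop : ∀ v ∈ C, (1 - δ) * Zf Ind lam S C ≤ (1 + lam) * Zf Ind lam (insert v S) (C.erase v)) :
    Cover Ind C δ lam := by
  classical
  obtain ⟨M, hM⟩ : ∃ M : ℕ → ℝ, ∀ j, M j =
      ∑ X ∈ C.powerset, wt Ind lam S X * (minB Ind S C X j).card := ⟨_, fun _ => rfl⟩
  have h1 : M 1 ≤ δ * C.card * Zf Ind lam S C := hM 1 ▸ sum_minB_one hmono hl S C hstop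
  have hs : ∀ j, 1 ≤ j → lam / 4 * M (j + 1) ≤ M j := fun j hj => by
    have := sum_minB_succ hmono hloc hl S C hj
    rw [← hM, ← hM] at this
    linarith
  have hl4 : 0 ≤ lam / 4 := by positivity
  have h2 : lam / 4 * M 2 ≤ M 1 := hs 1 le_rfl
  have h3 : (lam / 4) ^ 2 * M 3 ≤ M 1 := by
    have := mul_le_mul_of_nonneg_left (hs 2 (by norm_num)) hl4
    nlinarith
  have h4 : (lam / 4) ^ 3 * M 4 ≤ M 1 := by
    have := mul_le_mul_of_nonneg_left (hs 3 (by norm_num)) (pow_nonneg hl4 2)
    nlinarith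
  obtain ⟨f, hf⟩ : ∃ f : Finset α → ℝ, ∀ X, f X =
      ∑ j ∈ range 4, ((minB Ind S C X (j + 1)).card : ℝ) * (lam / 4) ^ j := ⟨_, fun _ => rfl⟩
  have hsum : ∑ X ∈ C.powerset, wt Ind lam S X * f X ≤
      ∑ X ∈ C.powerset, wt Ind lam S X * (4 * δ * C.card) := by
    have e1 : ∑ X ∈ C.powerset, wt Ind lam S X * f X =
        M 1 + lam / 4 * M 2 + (lam / 4) ^ 2 * M 3 + (lam / 4) ^ 3 * M 4 := by
      simp only [hM, mul_sum, ← sum_add_distrib]
      refine sum_congr rfl fun X _ => ?_
      simp only [hf, sum_range_succ, sum_range_zero]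
      ring
    have e2 : ∑ X ∈ C.powerset, wt Ind lam S X * (4 * δ * C.card) =
        4 * (δ * C.card * Zf Ind lam S C) := by
      rw [← sum_mul, Zf]
      ring
    rw [e1, e2]
    linarith
  obtain ⟨X, hX, hfX⟩ : ∃ X, Ind (S ∪ X) ∧ f X ≤ 4 * δ * C.card := by
    by_contra hc
    push Not at hc
    refine absurd hsum (not_le.2 (sum_lt_sum (fun X _ => ?_) ⟨∅, empty_mem_powerset C, ?_⟩))
    · by_cases h : Ind (S ∪ X)
      · exact mul_le_mul_of_nonneg_left (hc X h).le (wt_nonneg hl _ _)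
      · simp only [wt, h, if_false, zero_mul, le_refl]
    · have h : wt Ind lam S ∅ = 1 := by simp [wt, hS]
      rw [h, one_mul, one_mul]
      exact hc ∅ (by rwa [union_empty])
  refine ⟨(range 4).biUnion fun j => minB Ind S C X (j + 1), fun E hE h4' hn => ?_,
    fun j hj => ?_⟩
  · obtain ⟨T, hT, hne, hm⟩ := exists_minB hmono hX hE hn
    have hc := card_pos.2 hne
    have hc' := card_le_card hT
    refine ⟨T, mem_biUnion.2 ⟨T.card - 1, mem_range.2 (by omega), ?_⟩, hT, hne⟩
    rwa [Nat.sub_add_cancel hc]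
  · have hsub : (((range 4).biUnion fun j => minB Ind S C X (j + 1)).filter
        fun T => T.card = j + 1) ⊆ minB Ind S C X (j + 1) := by
      intro T hT
      obtain ⟨h5, h6⟩ := mem_filter.1 hT
      obtain ⟨i, -, hi⟩ := mem_biUnion.1 h5
      have : T.card = i + 1 := (mem_powersetCard.1 (mem_filter.1 hi).1).2
      rw [← h6, this]
      exact hi
    calc _ ≤ ((minB Ind S C X (j + 1)).card : ℝ) * (lam / 4) ^ j := by
          refine mul_le_mul_of_nonneg_right ?_ (pow_nonneg hl4 j)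
          exact_mod_cast card_le_card hsub
      _ ≤ f X := by
          rw [hf]
          exact single_le_sum (f := fun j => ((minB Ind S C X (j + 1)).card : ℝ) * (lam / 4) ^ j)
            (fun i _ => mul_nonneg (Nat.cast_nonneg _) (pow_nonneg hl4 i))
            (mem_range.2 (by omega))
      _ ≤ _ := hfX

theorem containers_aux (hmono : ∀ A B, A ⊆ B → Ind B → Ind A)
    (hloc : ∀ Y, ¬ Ind Y → ∃ E ⊆ Y, E.card ≤ 4 ∧ ¬ Ind E) (hl : 0 ≤ lam) (hδ : δ ≤ 1)
    {y : ℝ} (hy : 0 ≤ y) (n : ℕ) : ∀ C S : Finset α, C.card = n → Disjoint S C → Ind S →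
    ∃ F : Finset (Finset α × Finset α),
      (∀ I, Ind I → S ⊆ I → I ⊆ S ∪ C → ∃ p ∈ F, I ⊆ p.1 ∪ p.2) ∧
      (∀ p ∈ F, p.1 ∪ p.2 ⊆ S ∪ C ∧ p.2 ⊆ C ∧ Cover Ind p.2 δ lam ∧
        (1 - δ) ^ S.card ≤ (1 - δ) ^ p.1.card * Zf Ind lam S C) ∧
      ∑ p ∈ F, y ^ p.1.card ≤ y ^ S.card * (1 + y) ^ C.card := by
  classical
  have hδ' : 0 ≤ 1 - δ := by linarith
  induction n with
  | zero =>
    intro C S hC _ hS
    obtain rfl := card_eq_zero.1 hC
    refine ⟨{(S, ∅)}, fun I _ _ h => ⟨_, mem_singleton_self _, h⟩, fun p hp => ?_, by simp⟩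
    rw [mem_singleton.1 hp]
    refine ⟨Subset.rfl, Subset.rfl, cover_of_stop hmono hloc hl hS _ (by simp), ?_⟩
    exact le_mul_of_one_le_right (pow_nonneg hδ' _) (one_le_Zf hl hS _)
  | succ n ih =>
    intro C S hC hd hS
    by_cases hstop : ∀ v ∈ C,
        (1 - δ) * Zf Ind lam S C ≤ (1 + lam) * Zf Ind lam (insert v S) (C.erase v)
    · refine ⟨{(S, C)}, fun I _ _ h => ⟨_, mem_singleton_self _, h⟩, fun p hp => ?_, ?_⟩
      · rw [mem_singleton.1 hp]
        refine ⟨Subset.rfl, Subset.rfl, cover_of_stop hmono hloc hl hS _ hstop, ?_⟩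
        exact le_mul_of_one_le_right (pow_nonneg hδ' _) (one_le_Zf hl hS _)
      · rw [sum_singleton]
        exact le_mul_of_one_le_right (pow_nonneg hy _) (one_le_pow₀ (by linarith))
    push Not at hstop
    obtain ⟨v, hv, hlt⟩ := hstop
    have hvS : v ∉ S := fun h => disjoint_left.1 hd h hv
    have hce : (C.erase v).card = n := by rw [card_erase_of_mem hv, hC]; rfl
    have hsub : S ∪ C.erase v ⊆ S ∪ C := union_subset_union Subset.rfl (erase_subset v C)
    obtain ⟨F0, a1, a2, a3⟩ := ih (C.erase v) S hce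
      (hd.mono_right (erase_subset v C)) hS
    have b2 : ∀ p ∈ F0, p.1 ∪ p.2 ⊆ S ∪ C ∧ p.2 ⊆ C ∧ Cover Ind p.2 δ lam ∧
        (1 - δ) ^ S.card ≤ (1 - δ) ^ p.1.card * Zf Ind lam S C := fun p hp => by
      obtain ⟨c1, c2, c3, c4⟩ := a2 p hp
      exact ⟨c1.trans hsub, c2.trans (erase_subset v C), c3, c4.trans
        (mul_le_mul_of_nonneg_left (Zf_erase_le hl S C v) (pow_nonneg hδ' _))⟩
    have hnot : ∀ I, v ∉ I → I ⊆ S ∪ C → I ⊆ S ∪ C.erase v := fun I hI h x hx => by
      have h1 := h hx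
      have h2 : x ≠ v := fun e => hI (e ▸ hx)
      simp only [mem_union, mem_erase] at h1 ⊢
      tauto
    have hP : 0 ≤ y ^ S.card * (1 + y) ^ n := by positivity
    rw [hce] at a3
    by_cases hS' : Ind (insert v S)
    · obtain ⟨F1, d1, d2, d3⟩ := ih (C.erase v) (insert v S) hce
        (disjoint_insert_left.2 ⟨notMem_erase v C, hd.mono_right (erase_subset v C)⟩) hS'
      have hsub' : insert v S ∪ C.erase v = S ∪ C := by
        rw [insert_union, ← union_insert, insert_erase hv]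
      refine ⟨F0 ∪ F1, fun I hI h1 h2 => ?_, fun p hp => ?_, ?_⟩
      · by_cases hvI : v ∈ I
        · obtain ⟨p, hp, h⟩ := d1 I hI (insert_subset hvI h1) (hsub' ▸ h2)
          exact ⟨p, mem_union_right _ hp, h⟩
        · obtain ⟨p, hp, h⟩ := a1 I hI h1 (hnot I hvI h2)
          exact ⟨p, mem_union_left _ hp, h⟩
      · rcases mem_union.1 hp with hp | hp
        · exact b2 p hp
        · obtain ⟨c1, c2, c3, c4⟩ := d2 p hp
          refine ⟨hsub' ▸ c1, c2.trans (erase_subset v C), c3, ?_⟩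
          rw [card_insert_of_notMem hvS, pow_succ] at c4
          have hZ := Zf_nonneg (Ind := Ind) hl (insert v S) (C.erase v)
          have hZ1 : Zf Ind lam (insert v S) (C.erase v) ≤ (1 - δ) * Zf Ind lam S C := by
            nlinarith
          have hpos : 0 < 1 - δ := by
            rcases hδ'.eq_or_lt with h | h
            · rw [← h, zero_mul] at hlt
              nlinarith
            · exact h
          have h5 := c4.trans (mul_le_mul_of_nonneg_left hZ1 (pow_nonneg hδ' _))
          refine le_of_mul_le_mul_right ?_ hpos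
          linarith
      · rw [hce, card_insert_of_notMem hvS] at d3
        have := sum_union_inter (s₁ := F0) (s₂ := F1) (f := fun p => y ^ p.1.card)
        have h0 : 0 ≤ ∑ p ∈ F0 ∩ F1, y ^ p.1.card := sum_nonneg fun _ _ => pow_nonneg hy _
        rw [hC, pow_succ (1 + y)]
        rw [pow_succ y] at d3
        nlinarith
    · refine ⟨F0, fun I hI h1 h2 => ?_, b2, ?_⟩
      · exact a1 I hI h1 (hnot I (fun hvI => hS' (hmono _ _ (insert_subset hvI h1) hI)) h2)
      · rw [hC, pow_succ (1 + y)]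
        nlinarith

/-- the container lemma -/
theorem containers (hmono : ∀ A B, A ⊆ B → Ind B → Ind A)
    (hloc : ∀ Y, ¬ Ind Y → ∃ E ⊆ Y, E.card ≤ 4 ∧ ¬ Ind E) (h0 : Ind ∅) (hl : 0 < lam)
    (hl1 : lam ≤ 1) (hδ0 : 0 < δ) (hδ : δ ≤ 1) (V : Finset α) :
    ∃ F : Finset (Finset α × Finset α),
      (∀ I, Ind I → I ⊆ V → ∃ p ∈ F, I ⊆ p.1 ∪ p.2) ∧
      (∀ p ∈ F, p.1 ∪ p.2 ⊆ V ∧ Cover Ind p.2 δ lam ∧ (p.1.card : ℝ) ≤ lam / δ * V.card) ∧
      (F.card : ℝ) ≤ Real.exp (lam * V.card + lam / δ * V.card * (-Real.log lam)) := by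
  obtain ⟨F, h1, h2, h3⟩ := containers_aux hmono hloc hl.le hδ hl.le V.card V ∅ rfl
    (disjoint_empty_left V) h0
  have hV : (1 + lam) ^ V.card ≤ Real.exp (lam * V.card) := by
    rw [mul_comm, Real.exp_nat_mul]
    exact pow_le_pow_left₀ (by linarith) (by linarith [Real.add_one_le_exp lam]) _
  have hk : ∀ p ∈ F, (p.1.card : ℝ) ≤ lam / δ * V.card := fun p hp => by
    have h := (h2 p hp).2.2.2
    rw [card_empty, pow_zero] at h
    have h5 : (1 - δ) ^ p.1.card ≤ Real.exp (-δ * p.1.card) := by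
      rw [mul_comm, Real.exp_nat_mul]
      exact pow_le_pow_left₀ (by linarith) (by linarith [Real.add_one_le_exp (-δ)]) _
    have h6 : 1 ≤ Real.exp (-δ * p.1.card + lam * V.card) := by
      rw [Real.exp_add]
      exact h.trans (mul_le_mul h5 ((Zf_le hl.le _ _).trans hV) (Zf_nonneg hl.le _ _)
        (Real.exp_pos _).le)
    have h7 := Real.one_le_exp_iff.1 h6
    rw [div_mul_eq_mul_div, le_div_iff₀ hδ0]
    linarith
  refine ⟨F, fun I hI h => h1 I hI (empty_subset I) (by rwa [empty_union]), fun p hp =>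
    ⟨by simpa using (h2 p hp).1, (h2 p hp).2.2.1, hk p hp⟩, ?_⟩
  rw [card_empty, pow_zero, one_mul] at h3
  have hlog : Real.log lam ≤ 0 := Real.log_nonpos hl.le hl1
  have h8 : (F.card : ℝ) * Real.exp (lam / δ * V.card * Real.log lam) ≤
      Real.exp (lam * V.card) := by
    refine le_trans ?_ (h3.trans hV)
    rw [← nsmul_eq_mul, ← sum_const]
    refine sum_le_sum fun p hp => ?_
    rw [← Real.exp_log (pow_pos hl p.1.card), Real.log_pow]
    exact Real.exp_le_exp.2 (mul_le_mul_of_nonpos_right (hk p hp) hlog)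
  rw [mul_neg, ← sub_eq_add_neg, Real.exp_sub, le_div_iff₀ (Real.exp_pos _)]
  exact h8

end Pool.Agent.P.MP_ca07c0_co.Neg
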