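import Mathlib

/-!
Counting additive quadruples from a cover (helper file only).
-/

namespace Pool.Agent.P.MP_ca07c0_co.Neg

open Finset

/-- Sidon sets of integers -/
def Sidon (S : Finset ℤ) : Prop :=
  ∀ a ∈ S, ∀ b ∈ S, ∀ c ∈ S, ∀ d ∈ S, a + b = c + d → (a = c ∧ b = d) ∨ (a = d ∧ b = c)

theorem Sidon.mono (A B : Finset ℤ) (h : A ⊆ B) (hB : Sidon B) : Sidon A :=
  fun a ha b hb c hc d hd => hB a (h ha) b (h hb) c (h hc) d (h hd)

theorem sidon_empty : Sidon ∅ := fun a ha => absurd ha (notMem_empty a)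

theorem card_four_le (x y z w : ℤ) : ({x, y, z, w} : Finset ℤ).card ≤ 4 := card_le_four

theorem sidon_loc (Y : Finset ℤ) (h : ¬ Sidon Y) : ∃ E ⊆ Y, E.card ≤ 4 ∧ ¬ Sidon E := by
  unfold Sidon at h
  push Not at h
  obtain ⟨a, ha, b, hb, c, hc, d, hd, h1, h2, h3⟩ := h
  refine ⟨{a, b, c, d}, ?_, card_four_le _ _ _ _, fun hS => ?_⟩
  · intro x hx
    simp only [mem_insert, mem_singleton] at hx
    rcases hx with rfl | rfl | rfl | rfl <;> assumption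
  · rcases hS a (by simp) b (by simp) c (by simp) d (by simp) h1 with h | h
    · exact h2 h.1 h.2
    · exact h3 h.1 h.2

/-- pairs with a given difference -/
def dif (W : Finset ℤ) (d : ℤ) : Finset (ℤ × ℤ) := (W ×ˢ W).filter fun p => p.1 - p.2 = d

/-- pairs with a given sum -/
def sm (W : Finset ℤ) (c : ℤ) : Finset (ℤ × ℤ) := (W ×ˢ W).filter fun p => p.1 + p.2 = c

/-- additive quadruples -/
def Sol (W : Finset ℤ) : Finset ((ℤ × ℤ) × (ℤ × ℤ)) :=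
  ((W ×ˢ W) ×ˢ (W ×ˢ W)).filter fun q => q.1.1 - q.1.2 = q.2.1 - q.2.2

/-- non-trivial quadruples without popular differences and sums -/
noncomputable def Light (W : Finset ℤ) (θ : ℝ) : Finset ((ℤ × ℤ) × (ℤ × ℤ)) :=
  (Sol W).filter fun q => q.1.1 ≠ q.1.2 ∧ q.1.1 ≠ q.2.1 ∧ ((dif W (q.1.1 - q.1.2)).card : ℝ) ≤ θ ∧
    ((dif W (q.1.1 - q.2.1)).card : ℝ) ≤ θ ∧ ((sm W (q.1.1 + q.2.2)).card : ℝ) ≤ θ

theorem mem_dif {W : Finset ℤ} {d : ℤ} {p : ℤ × ℤ} :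
    p ∈ dif W d ↔ p.1 ∈ W ∧ p.2 ∈ W ∧ p.1 - p.2 = d := by
  simp [dif, and_assoc]

theorem mem_sm {W : Finset ℤ} {d : ℤ} {p : ℤ × ℤ} :
    p ∈ sm W d ↔ p.1 ∈ W ∧ p.2 ∈ W ∧ p.1 + p.2 = d := by
  simp [sm, and_assoc]

theorem mem_Sol {W : Finset ℤ} {q : (ℤ × ℤ) × (ℤ × ℤ)} :
    q ∈ Sol W ↔ q.1.1 ∈ W ∧ q.1.2 ∈ W ∧ q.2.1 ∈ W ∧ q.2.2 ∈ W ∧
      q.1.1 - q.1.2 = q.2.1 - q.2.2 := by
  simp [Sol, and_assoc]

theorem mem_Light {W : Finset ℤ} {θ : ℝ} {x y z w : ℤ} :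
    ((x, y), (z, w)) ∈ Light W θ ↔ (x ∈ W ∧ y ∈ W ∧ z ∈ W ∧ w ∈ W ∧ x - y = z - w) ∧
      x ≠ y ∧ x ≠ z ∧ ((dif W (x - y)).card : ℝ) ≤ θ ∧ ((dif W (x - z)).card : ℝ) ≤ θ ∧
      ((sm W (x + w)).card : ℝ) ≤ θ := by
  rw [Light, mem_filter, mem_Sol]

theorem card_dif_le (W : Finset ℤ) (d : ℤ) : (dif W d).card ≤ W.card := by
  refine card_le_card_of_injOn Prod.fst (fun p hp => (mem_dif.1 hp).1) fun p hp q hq h => ?_
  have h1 := (mem_dif.1 hp).2.2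
  have h2 := (mem_dif.1 hq).2.2
  exact Prod.ext h (by omega)

theorem card_sm_le (W : Finset ℤ) (d : ℤ) : (sm W d).card ≤ W.card := by
  refine card_le_card_of_injOn Prod.fst (fun p hp => (mem_sm.1 hp).1) fun p hp q hq h => ?_
  have h1 := (mem_sm.1 hp).2.2
  have h2 := (mem_sm.1 hq).2.2
  exact Prod.ext h (by omega)

theorem pair_le {β : Type*} [DecidableEq β] (L : Finset β) (f g : β → ℤ) (k : β → ℤ × ℤ)
    (F : ℤ → ℤ → Finset (ℤ × ℤ)) {θ : ℝ} (hθ : 0 ≤ θ)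
    (hinj : ∀ q ∈ L, ∀ q' ∈ L, f q = f q' → g q = g q' → k q = k q' → q = q')
    (hmem : ∀ q ∈ L, k q ∈ F (f q) (g q)) (hF : ∀ q ∈ L, ((F (f q) (g q)).card : ℝ) ≤ θ)
    (T : Finset ℤ) (hT : T.card = 2) :
    ((L.filter fun q => f q ∈ T ∧ g q ∈ T).card : ℝ) ≤ 4 * θ := by
  have h1 : (L.filter fun q => f q ∈ T ∧ g q ∈ T) ⊆
      (T ×ˢ T).biUnion fun p => L.filter fun q => f q = p.1 ∧ g q = p.2 := by
    intro q hq
    obtain ⟨h1, h2, h3⟩ := mem_filter.1 hq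
    exact mem_biUnion.2 ⟨(f q, g q), mem_product.2 ⟨h2, h3⟩, mem_filter.2 ⟨h1, rfl, rfl⟩⟩
  have h2 : ∀ p : ℤ × ℤ, ((L.filter fun q => f q = p.1 ∧ g q = p.2).card : ℝ) ≤ θ := fun p => by
    rcases (L.filter fun q => f q = p.1 ∧ g q = p.2).eq_empty_or_nonempty with h | ⟨q0, hq0⟩
    · rw [h]
      simpa using hθ
    · obtain ⟨a1, a2, a3⟩ := mem_filter.1 hq0
      refine le_trans ?_ (hF q0 a1)
      have : (L.filter fun q => f q = p.1 ∧ g q = p.2).card ≤ (F (f q0) (g q0)).card := by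
        refine card_le_card_of_injOn k (fun q hq => ?_) fun q hq q' hq' h => ?_
        · obtain ⟨b1, b2, b3⟩ := mem_filter.1 hq
          have := hmem q b1
          rw [b2, b3, ← a2, ← a3] at this
          exact this
        · obtain ⟨b1, b2, b3⟩ := mem_filter.1 hq
          obtain ⟨c1, c2, c3⟩ := mem_filter.1 hq'
          exact hinj q b1 q' c1 (b2.trans c2.symm) (b3.trans c3.symm) h
      exact_mod_cast this
  have h3 := (card_le_card h1).trans card_biUnion_le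
  calc ((L.filter fun q => f q ∈ T ∧ g q ∈ T).card : ℝ)
      ≤ ∑ p ∈ T ×ˢ T, ((L.filter fun q => f q = p.1 ∧ g q = p.2).card : ℝ) := by
        exact_mod_cast h3
    _ ≤ ∑ _p ∈ T ×ˢ T, θ := sum_le_sum fun p _ => h2 p
    _ = 4 * θ := by
        rw [sum_const, card_product, hT, nsmul_eq_mul]
        norm_num

theorem triple_le {β : Type*} [DecidableEq β] (L : Finset β) (f g k : β → ℤ)
    (hinj : ∀ q ∈ L, ∀ q' ∈ L, f q = f q' → g q = g q' → k q = k q' → q = q')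
    (T : Finset ℤ) (hT : T.card ≤ 4) :
    (L.filter fun q => f q ∈ T ∧ g q ∈ T ∧ k q ∈ T).card ≤ 64 := by
  have h : (L.filter fun q => f q ∈ T ∧ g q ∈ T ∧ k q ∈ T).card ≤ (T ×ˢ T ×ˢ T).card := by
    refine card_le_card_of_injOn (fun q => (f q, g q, k q)) (fun q hq => ?_)
      fun q hq q' hq' h => ?_
    · obtain ⟨-, b2, b3, b4⟩ := mem_filter.1 hq
      exact mem_coe.2 (mem_product.2 ⟨b2, mem_product.2 ⟨b3, b4⟩⟩)
    · simp only [Prod.mk.injEq] at h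
      exact hinj q (mem_filter.1 hq).1 q' (mem_filter.1 hq').1 h.1 h.2.1 h.2.2
  rw [card_product, card_product] at h
  calc _ ≤ T.card * (T.card * T.card) := h
    _ ≤ 4 * (4 * 4) := by gcongr

theorem two_of {T : Finset ℤ} {x y z w : ℤ} (h : T ⊆ {x, y, z, w}) (h2 : T.card = 2) :
    (x ∈ T ∧ y ∈ T) ∨ (z ∈ T ∧ w ∈ T) ∨ (x ∈ T ∧ z ∈ T) ∨ (y ∈ T ∧ w ∈ T) ∨
      (x ∈ T ∧ w ∈ T) ∨ (y ∈ T ∧ z ∈ T) := by
  obtain ⟨a, ha, b, hb, hab⟩ := one_lt_card.1 (by omega : 1 < T.card)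
  have h1 := h ha
  have h3 := h hb
  simp only [mem_insert, mem_singleton] at h1 h3
  rcases h1 with rfl | rfl | rfl | rfl <;> rcases h3 with rfl | rfl | rfl | rfl <;> tauto

theorem three_of {T : Finset ℤ} {x y z w : ℤ} (h : T ⊆ {x, y, z, w}) (h2 : 3 ≤ T.card) :
    (x ∈ T ∧ y ∈ T ∧ z ∈ T) ∨ (x ∈ T ∧ y ∈ T ∧ w ∈ T) ∨ (x ∈ T ∧ z ∈ T ∧ w ∈ T) ∨
      (y ∈ T ∧ z ∈ T ∧ w ∈ T) := by
  obtain ⟨a, b, c, ha, hb, hc, hab, hac, hbc⟩ := two_lt_card_iff.1 (by omega : 2 < T.card)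
  have h1 := h ha
  have h3 := h hb
  have h4 := h hc
  simp only [mem_insert, mem_singleton] at h1 h3 h4
  rcases h1 with rfl | rfl | rfl | rfl <;> rcases h3 with rfl | rfl | rfl | rfl <;>
    rcases h4 with rfl | rfl | rfl | rfl <;> tauto

/-- the entries of a quadruple -/
def ent (q : (ℤ × ℤ) × (ℤ × ℤ)) : Finset ℤ := {q.1.1, q.1.2, q.2.1, q.2.2}

theorem light_two (W : Finset ℤ) {θ : ℝ} (hθ : 0 ≤ θ) (T : Finset ℤ) (hT : T.card = 2) :
    (((Light W θ).filter fun q => T ⊆ ent q).card : ℝ) ≤ 24 * θ := by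
  set L := Light W θ with hL
  have p1 := pair_le L (fun q => q.1.1) (fun q => q.1.2) (fun q => q.2)
    (fun a b => dif W (a - b)) hθ
    (by rintro ⟨⟨x, y⟩, z, w⟩ _ ⟨⟨x', y'⟩, z', w'⟩ _ h1 h2 h3; simp_all)
    (by rintro ⟨⟨x, y⟩, z, w⟩ hq
        obtain ⟨⟨_, _, h3, h4, h5⟩, -⟩ := mem_Light.1 hq
        exact mem_dif.2 ⟨h3, h4, h5.symm⟩)
    (by rintro ⟨⟨x, y⟩, z, w⟩ hq; exact (mem_Light.1 hq).2.2.2.1) T hT
  have p2 := pair_le L (fun q => q.2.1) (fun q => q.2.2) (fun q => q.1)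
    (fun a b => dif W (a - b)) hθ
    (by rintro ⟨⟨x, y⟩, z, w⟩ _ ⟨⟨x', y'⟩, z', w'⟩ _ h1 h2 h3; simp_all)
    (by rintro ⟨⟨x, y⟩, z, w⟩ hq
        obtain ⟨⟨h1, h2, _, _, h5⟩, -⟩ := mem_Light.1 hq
        exact mem_dif.2 ⟨h1, h2, h5⟩)
    (by rintro ⟨⟨x, y⟩, z, w⟩ hq
        obtain ⟨⟨_, _, _, _, h5⟩, -, -, h, -⟩ := mem_Light.1 hq
        rwa [h5] at h) T hT
  have p3 := pair_le L (fun q => q.1.1) (fun q => q.2.1) (fun q => (q.1.2, q.2.2))
    (fun a b => dif W (a - b)) hθ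
    (by rintro ⟨⟨x, y⟩, z, w⟩ _ ⟨⟨x', y'⟩, z', w'⟩ _ h1 h2 h3; simp_all)
    (by rintro ⟨⟨x, y⟩, z, w⟩ hq
        obtain ⟨⟨_, h2, _, h4, h5⟩, -⟩ := mem_Light.1 hq
        exact mem_dif.2 ⟨h2, h4, by simp only; omega⟩)
    (by rintro ⟨⟨x, y⟩, z, w⟩ hq; exact (mem_Light.1 hq).2.2.2.2.1) T hT
  have p4 := pair_le L (fun q => q.1.2) (fun q => q.2.2) (fun q => (q.1.1, q.2.1))
    (fun a b => dif W (a - b)) hθ
    (by rintro ⟨⟨x, y⟩, z, w⟩ _ ⟨⟨x', y'⟩, z', w'⟩ _ h1 h2 h3; simp_all)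
    (by rintro ⟨⟨x, y⟩, z, w⟩ hq
        obtain ⟨⟨h1, _, h3, _, h5⟩, -⟩ := mem_Light.1 hq
        exact mem_dif.2 ⟨h1, h3, by simp only; omega⟩)
    (by rintro ⟨⟨x, y⟩, z, w⟩ hq
        obtain ⟨⟨_, _, _, _, h5⟩, -, -, -, h, -⟩ := mem_Light.1 hq
        have e : x - z = y - w := by omega
        rwa [e] at h) T hT
  have p5 := pair_le L (fun q => q.1.1) (fun q => q.2.2) (fun q => (q.1.2, q.2.1))
    (fun a b => sm W (a + b)) hθ
    (by rintro ⟨⟨x, y⟩, z, w⟩ _ ⟨⟨x', y'⟩, z', w'⟩ _ h1 h2 h3; simp_all)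
    (by rintro ⟨⟨x, y⟩, z, w⟩ hq
        obtain ⟨⟨_, h2, h3, _, h5⟩, -⟩ := mem_Light.1 hq
        exact mem_sm.2 ⟨h2, h3, by simp only; omega⟩)
    (by rintro ⟨⟨x, y⟩, z, w⟩ hq; exact (mem_Light.1 hq).2.2.2.2.2) T hT
  have p6 := pair_le L (fun q => q.1.2) (fun q => q.2.1) (fun q => (q.1.1, q.2.2))
    (fun a b => sm W (a + b)) hθ
    (by rintro ⟨⟨x, y⟩, z, w⟩ _ ⟨⟨x', y'⟩, z', w'⟩ _ h1 h2 h3; simp_all)
    (by rintro ⟨⟨x, y⟩, z, w⟩ hq
        obtain ⟨⟨h1, _, _, h4, h5⟩, -⟩ := mem_Light.1 hq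
        exact mem_sm.2 ⟨h1, h4, by simp only; omega⟩)
    (by rintro ⟨⟨x, y⟩, z, w⟩ hq
        obtain ⟨⟨_, _, _, _, h5⟩, -, -, -, -, h⟩ := mem_Light.1 hq
        have e : x + w = y + z := by omega
        rwa [e] at h) T hT
  have hsub : (L.filter fun q => T ⊆ ent q) ⊆
      (L.filter fun q => q.1.1 ∈ T ∧ q.1.2 ∈ T) ∪ ((L.filter fun q => q.2.1 ∈ T ∧ q.2.2 ∈ T) ∪
      ((L.filter fun q => q.1.1 ∈ T ∧ q.2.1 ∈ T) ∪ ((L.filter fun q => q.1.2 ∈ T ∧ q.2.2 ∈ T) ∪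
      ((L.filter fun q => q.1.1 ∈ T ∧ q.2.2 ∈ T) ∪
        (L.filter fun q => q.1.2 ∈ T ∧ q.2.1 ∈ T))))) := by
    intro q hq
    obtain ⟨h1, h2⟩ := mem_filter.1 hq
    have := two_of h2 hT
    simp only [mem_union, mem_filter, h1, true_and]
    exact this
  have h := (card_le_card hsub).trans ((card_union_le _ _).trans (Nat.add_le_add_left
    ((card_union_le _ _).trans (Nat.add_le_add_left ((card_union_le _ _).trans
    (Nat.add_le_add_left ((card_union_le _ _).trans (Nat.add_le_add_left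
    (card_union_le _ _) _)) _)) _)) _))
  have h' := (Nat.cast_le (α := ℝ)).2 h
  push_cast at h'
  linarith

theorem light_three (W : Finset ℤ) (θ : ℝ) (T : Finset ℤ) (hT : 3 ≤ T.card) (hT' : T.card ≤ 4) :
    ((Light W θ).filter fun q => T ⊆ ent q).card ≤ 256 := by
  set L := Light W θ with hL
  have e : ∀ q ∈ L, q.1.1 - q.1.2 = q.2.1 - q.2.2 := by
    rintro ⟨⟨x, y⟩, z, w⟩ hq
    exact (mem_Light.1 hq).1.2.2.2.2
  have ext4 : ∀ q q' : (ℤ × ℤ) × (ℤ × ℤ), q.1.1 = q'.1.1 → q.1.2 = q'.1.2 → q.2.1 = q'.2.1 →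
      q.2.2 = q'.2.2 → q = q' := fun q q' a b c d => Prod.ext (Prod.ext a b) (Prod.ext c d)
  have p1 := triple_le L (fun q => q.1.1) (fun q => q.1.2) (fun q => q.2.1)
    (fun q hq q' hq' a b c => ext4 q q' a b c (by have := e q hq; have := e q' hq'; omega)) T hT'
  have p2 := triple_le L (fun q => q.1.1) (fun q => q.1.2) (fun q => q.2.2)
    (fun q hq q' hq' a b c => ext4 q q' a b (by have := e q hq; have := e q' hq'; omega) c) T hT'
  have p3 := triple_le L (fun q => q.1.1) (fun q => q.2.1) (fun q => q.2.2)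
    (fun q hq q' hq' a b c => ext4 q q' a (by have := e q hq; have := e q' hq'; omega) b c) T hT'
  have p4 := triple_le L (fun q => q.1.2) (fun q => q.2.1) (fun q => q.2.2)
    (fun q hq q' hq' a b c => ext4 q q' (by have := e q hq; have := e q' hq'; omega) a b c) T hT'
  have hsub : (L.filter fun q => T ⊆ ent q) ⊆
      (L.filter fun q => q.1.1 ∈ T ∧ q.1.2 ∈ T ∧ q.2.1 ∈ T) ∪
      ((L.filter fun q => q.1.1 ∈ T ∧ q.1.2 ∈ T ∧ q.2.2 ∈ T) ∪
      ((L.filter fun q => q.1.1 ∈ T ∧ q.2.1 ∈ T ∧ q.2.2 ∈ T) ∪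
      (L.filter fun q => q.1.2 ∈ T ∧ q.2.1 ∈ T ∧ q.2.2 ∈ T))) := by
    intro q hq
    obtain ⟨h1, h2⟩ := mem_filter.1 hq
    have := three_of h2 hT
    simp only [mem_union, mem_filter, h1, true_and]
    exact this
  have h := (card_le_card hsub).trans ((card_union_le _ _).trans (Nat.add_le_add_left
    ((card_union_le _ _).trans (Nat.add_le_add_left (card_union_le _ _) _)) _))
  omega

theorem light_le {C W : Finset ℤ} (hW : W ⊆ C) (G : Finset (Finset ℤ))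
    (hG : ∀ E ⊆ C, E.card ≤ 4 → ¬ Sidon E → ∃ T ∈ G, T ⊆ E ∧ T.Nonempty)
    (hW1 : ∀ v ∈ W, {v} ∉ G) {θ : ℝ} (hθ : 0 ≤ θ) :
    ((Light W θ).card : ℝ) ≤ 24 * θ * (G.filter fun T => T.card = 2).card +
      256 * ((G.filter fun T => T.card = 3).card + (G.filter fun T => T.card = 4).card) := by
  have hsub : Light W θ ⊆
      ((G.filter fun T => T.card = 2).biUnion fun T => (Light W θ).filter fun q => T ⊆ ent q) ∪
      (((G.filter fun T => T.card = 3).biUnion fun T => (Light W θ).filter fun q => T ⊆ ent q) ∪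
      ((G.filter fun T => T.card = 4).biUnion fun T =>
        (Light W θ).filter fun q => T ⊆ ent q)) := by
    rintro ⟨⟨x, y⟩, z, w⟩ hq
    obtain ⟨⟨h1, h2, h3, h4, h5⟩, h6, h7, -⟩ := mem_Light.1 hq
    have hE : ent ((x, y), (z, w)) ⊆ W := by
      intro t ht
      simp only [ent, mem_insert, mem_singleton] at ht
      rcases ht with rfl | rfl | rfl | rfl <;> assumption
    obtain ⟨T, hT, hTE, hne⟩ := hG _ (hE.trans hW) (card_four_le _ _ _ _) fun hS => by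
      rcases hS x (by simp [ent]) w (by simp [ent]) y (by simp [ent]) z (by simp [ent])
        (by omega) with h | h
      · exact h6 h.1
      · exact h7 h.1
    have c1 := card_pos.2 hne
    have c4 : T.card ≤ 4 := (card_le_card hTE).trans (card_four_le _ _ _ _)
    have c2 : T.card ≠ 1 := fun h => by
      obtain ⟨v, rfl⟩ := card_eq_one.1 h
      exact hW1 v (hE (hTE (mem_singleton_self v))) hT
    simp only [mem_union, mem_biUnion, mem_filter]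
    have : T.card = 2 ∨ T.card = 3 ∨ T.card = 4 := by omega
    rcases this with h | h | h
    · exact Or.inl ⟨T, ⟨hT, h⟩, hq, hTE⟩
    · exact Or.inr (Or.inl ⟨T, ⟨hT, h⟩, hq, hTE⟩)
    · exact Or.inr (Or.inr ⟨T, ⟨hT, h⟩, hq, hTE⟩)
  have h := (card_le_card hsub).trans ((card_union_le _ _).trans (Nat.add_le_add
    card_biUnion_le ((card_union_le _ _).trans (Nat.add_le_add card_biUnion_le card_biUnion_le))))
  have h' := (Nat.cast_le (α := ℝ)).2 h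
  push_cast at h'
  have b2 : ∑ T ∈ G.filter fun T => T.card = 2,
      (((Light W θ).filter fun q => T ⊆ ent q).card : ℝ) ≤
      ∑ _T ∈ G.filter fun T => T.card = 2, 24 * θ :=
    sum_le_sum fun T hT => light_two W hθ T (mem_filter.1 hT).2
  have b3 : ∑ T ∈ G.filter fun T => T.card = 3,
      (((Light W θ).filter fun q => T ⊆ ent q).card : ℝ) ≤
      ∑ _T ∈ G.filter fun T => T.card = 3, (256 : ℝ) :=
    sum_le_sum fun T hT => by
      have := (mem_filter.1 hT).2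
      exact_mod_cast light_three W θ T (by omega) (by omega)
  have b4 : ∑ T ∈ G.filter fun T => T.card = 4,
      (((Light W θ).filter fun q => T ⊆ ent q).card : ℝ) ≤
      ∑ _T ∈ G.filter fun T => T.card = 4, (256 : ℝ) :=
    sum_le_sum fun T hT => by
      have := (mem_filter.1 hT).2
      exact_mod_cast light_three W θ T (by omega) (by omega)
  rw [sum_const, nsmul_eq_mul] at b2 b3 b4
  linarith

theorem sol_le (W : Finset ℤ) :
    (Sol W).card ≤ 2 * W.card ^ 2 + (Light W W.card).card := by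
  have hsub : Sol W ⊆ ((W ×ˢ W).image fun p => ((p.1, p.1), (p.2, p.2))) ∪
      (((W ×ˢ W).image fun p => (p, p)) ∪ Light W W.card) := by
    rintro ⟨⟨x, y⟩, z, w⟩ hq
    have hq' := mem_Sol.1 hq
    obtain ⟨h1, h2, h3, h4, h5⟩ := hq'
    simp only at h1 h2 h3 h4 h5
    by_cases a : x = y
    · refine mem_union_left _ (mem_image.2 ⟨(x, z), mem_product.2 ⟨h1, h3⟩, ?_⟩)
      have : z = w := by omega
      rw [← a, ← this]
    by_cases b : x = z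
    · refine mem_union_right _ (mem_union_left _
        (mem_image.2 ⟨(x, y), mem_product.2 ⟨h1, h2⟩, ?_⟩))
      have : y = w := by omega
      rw [← b, ← this]
    refine mem_union_right _ (mem_union_right _ (mem_Light.2 ⟨⟨h1, h2, h3, h4, h5⟩, a, b, ?_,
      ?_, ?_⟩))
    · exact_mod_cast card_dif_le W _
    · exact_mod_cast card_dif_le W _
    · exact_mod_cast card_sm_le W _
  have h := (card_le_card hsub).trans ((card_union_le _ _).trans (Nat.add_le_add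
    card_image_le ((card_union_le _ _).trans (Nat.add_le_add_right card_image_le _))))
  rw [card_product] at h
  nlinarith

theorem heavy_dif (W D : Finset ℤ) {θ : ℝ} (hθ : 0 ≤ θ) (hD : ∀ d ∈ D, θ ≤ (dif W d).card) :
    D.card * θ ^ 2 ≤ (Sol W).card := by
  have h1 : (D.biUnion fun d => dif W d ×ˢ dif W d) ⊆ Sol W := by
    intro q hq
    obtain ⟨d, -, hd⟩ := mem_biUnion.1 hq
    obtain ⟨a, b⟩ := mem_product.1 hd
    obtain ⟨a1, a2, a3⟩ := mem_dif.1 a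
    obtain ⟨b1, b2, b3⟩ := mem_dif.1 b
    exact mem_Sol.2 ⟨a1, a2, b1, b2, a3.trans b3.symm⟩
  have h2 := card_le_card h1
  rw [card_biUnion] at h2
  · calc (D.card : ℝ) * θ ^ 2 = ∑ _d ∈ D, θ ^ 2 := by rw [sum_const, nsmul_eq_mul]
      _ ≤ ∑ d ∈ D, ((dif W d ×ˢ dif W d).card : ℝ) := sum_le_sum fun d hd => by
          rw [card_product, Nat.cast_mul, ← sq]
          exact pow_le_pow_left₀ hθ (hD d hd) 2
      _ ≤ _ := by exact_mod_cast h2
  · intro d _ d' _ hne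
    refine disjoint_left.2 fun q h h' => hne ?_
    exact (mem_dif.1 (mem_product.1 h).1).2.2.symm.trans (mem_dif.1 (mem_product.1 h').1).2.2

theorem heavy_sm (W D : Finset ℤ) {θ : ℝ} (hθ : 0 ≤ θ) (hD : ∀ d ∈ D, θ ≤ (sm W d).card) :
    D.card * θ ^ 2 ≤ (Sol W).card := by
  have h2 : (D.biUnion fun d => sm W d ×ˢ sm W d).card ≤ (Sol W).card := by
    refine card_le_card_of_injOn (fun q => ((q.1.1, q.2.1), (q.2.2, q.1.2))) (fun q hq => ?_) ?_
    · obtain ⟨d, -, hd⟩ := mem_biUnion.1 hq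
      obtain ⟨a, b⟩ := mem_product.1 hd
      obtain ⟨a1, a2, a3⟩ := mem_sm.1 a
      obtain ⟨b1, b2, b3⟩ := mem_sm.1 b
      exact mem_coe.2 (mem_Sol.2 ⟨a1, b1, b2, a2, by simp only; omega⟩)
    · rintro ⟨⟨x, y⟩, z, w⟩ _ ⟨⟨x', y'⟩, z', w'⟩ _ h
      simp_all
  rw [card_biUnion] at h2
  · calc (D.card : ℝ) * θ ^ 2 = ∑ _d ∈ D, θ ^ 2 := by rw [sum_const, nsmul_eq_mul]
      _ ≤ ∑ d ∈ D, ((sm W d ×ˢ sm W d).card : ℝ) := sum_le_sum fun d hd => by
          rw [card_product, Nat.cast_mul, ← sq]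
          exact pow_le_pow_left₀ hθ (hD d hd) 2
      _ ≤ _ := by exact_mod_cast h2
  · intro d _ d' _ hne
    refine disjoint_left.2 fun q h h' => hne ?_
    exact (mem_sm.1 (mem_product.1 h).1).2.2.symm.trans (mem_sm.1 (mem_product.1 h').1).2.2

end Pool.Agent.P.MP_ca07c0_co.Neg
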