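import Pool.Agent.P.MP_ca07c0_co.Neg.Count

/-!
The key inequality (helper file only).
-/

namespace Pool.Agent.P.MP_ca07c0_co.Neg

open Finset

theorem energy_lb (W H S : Finset ℤ) (hS : ∀ x ∈ W, ∀ b ∈ H, x + b ∈ S) :
    W.card ^ 2 * H.card ^ 2 ≤ S.card * ∑ p ∈ W ×ˢ W, (dif H (p.1 - p.2)).card := by
  have h1 := card_sq_le_card_mul_addEnergy W H S
  rw [filter_eq_self.2 (fun p hp => hS _ (mem_product.1 hp).1 _ (mem_product.1 hp).2),
    card_product, mul_pow] at h1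
  refine h1.trans (Nat.mul_le_mul_left _ (le_of_eq ?_))
  rw [addEnergy, card_filter, sum_product]
  refine sum_congr rfl fun p _ => ?_
  rw [← card_filter]
  refine card_nbij' Prod.swap Prod.swap (fun q hq => ?_) (fun q hq => ?_) (fun q _ => rfl)
    fun q _ => rfl
  · obtain ⟨h2, h3⟩ := mem_filter.1 hq
    obtain ⟨h4, h5⟩ := mem_product.1 h2
    exact mem_dif.2 ⟨h5, h4, by simp only [Prod.fst_swap, Prod.snd_swap] at *; omega⟩
  · obtain ⟨h2, h3, h4⟩ := mem_dif.1 hq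
    exact mem_filter.2 ⟨mem_product.2 ⟨h3, h2⟩, by
      simp only [Prod.fst_swap, Prod.snd_swap] at *; omega⟩

theorem card_Sol (W : Finset ℤ) : (Sol W).card = ∑ p ∈ W ×ˢ W, (dif W (p.1 - p.2)).card := by
  rw [Sol, card_filter, sum_product]
  refine sum_congr rfl fun p _ => ?_
  rw [← card_filter, dif]
  congr 1
  ext q
  simp [eq_comm]

theorem sol_lb (W : Finset ℤ) (n : ℕ) (hn : ∀ x ∈ W, 0 ≤ x ∧ x < n) :
    W.card ^ 4 ≤ 2 * n * (Sol W).card := by
  have h := energy_lb W W (Ico 0 (2 * n : ℤ)) fun x hx b hb => by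
    have := hn x hx
    have := hn b hb
    rw [mem_Ico]
    omega
  rw [← card_Sol, Int.card_Ico] at h
  have e : ((2 * n : ℤ) - 0).toNat = 2 * n := by omega
  rw [e] at h
  calc W.card ^ 4 = W.card ^ 2 * W.card ^ 2 := by ring
    _ ≤ _ := h

theorem sum_dif (W D : Finset ℤ) (f : ℤ → ℝ) :
    ∑ p ∈ (W ×ˢ W).filter (fun p => p.1 - p.2 ∈ D), f (p.1 - p.2) =
      ∑ d ∈ D, (dif W d).card * f d := by
  rw [← sum_fiberwise_eq_sum_filter' (W ×ˢ W) D (fun p => p.1 - p.2) f]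
  refine sum_congr rfl fun d _ => ?_
  rw [sum_const, nsmul_eq_mul, dif]

theorem dif_le_light {W W0 Δ Sg : Finset ℤ} {θ : ℝ} {k : ℕ} (hW : W ⊆ W0) (h0 : (0 : ℤ) ∈ Δ)
    (hΔ : ∀ d ∉ Δ, ((dif W0 d).card : ℝ) ≤ θ) (hS : ∀ c ∉ Sg, ((sm W0 c).card : ℝ) ≤ θ)
    (hdeg : ∀ x ∈ W, (W.filter fun z => x - z ∈ Δ).card + (W.filter fun w => x + w ∈ Sg).card ≤ k)
    {x y : ℤ} (hx : x ∈ W) (hy : y ∈ W) (hxy : x - y ∉ Δ) :
    (dif W (x - y)).card ≤ k + ((Light W0 θ).filter fun q => q.1 = (x, y)).card := by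
  have hsub : dif W (x - y) ⊆ ((W.filter fun z => x - z ∈ Δ).image fun z => (z, z - (x - y))) ∪
      (((W.filter fun w => x + w ∈ Sg).image fun w => (w + (x - y), w)) ∪
      ((Light W0 θ).filter fun q => q.1 = (x, y)).image Prod.snd) := by
    rintro ⟨z, w⟩ hq
    obtain ⟨h1, h2, h3⟩ := mem_dif.1 hq
    simp only at h1 h2 h3
    by_cases a : x - z ∈ Δ
    · exact mem_union_left _ (mem_image.2 ⟨z, mem_filter.2 ⟨h1, a⟩, Prod.ext rfl (by
        simp only; omega)⟩)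
    by_cases b : x + w ∈ Sg
    · exact mem_union_right _ (mem_union_left _ (mem_image.2 ⟨w, mem_filter.2 ⟨h2, b⟩,
        Prod.ext (by simp only; omega) rfl⟩))
    refine mem_union_right _ (mem_union_right _ (mem_image.2 ⟨((x, y), (z, w)),
      mem_filter.2 ⟨mem_Light.2 ⟨⟨hW hx, hW hy, hW h1, hW h2, h3.symm⟩, fun e => hxy ?_,
      fun e => a ?_, hΔ _ hxy, hΔ _ a, hS _ b⟩, rfl⟩, rfl⟩))
    · rwa [e, sub_self]
    · rwa [e, sub_self]
  have h := (card_le_card hsub).trans ((card_union_le _ _).trans (Nat.add_le_add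
    card_image_le ((card_union_le _ _).trans (Nat.add_le_add card_image_le card_image_le))))
  have := hdeg x hx
  omega

theorem key {W W0 Δ Sg : Finset ℤ} {n h k : ℕ} {θ : ℝ} (hk : 1 ≤ k) (hh : 0 < h)
    (hW : W ⊆ W0) (hn : ∀ x ∈ W, 0 ≤ x ∧ x < n) (h0 : (0 : ℤ) ∈ Δ)
    (hΔ : ∀ d ∉ Δ, ((dif W0 d).card : ℝ) ≤ θ) (hS : ∀ c ∉ Sg, ((sm W0 c).card : ℝ) ≤ θ)
    (hdeg : ∀ x ∈ W, (W.filter fun z => x - z ∈ Δ).card +
      (W.filter fun w => x + w ∈ Sg).card ≤ k) :
    (W.card : ℝ) ^ 2 * h ≤ (n + h) * (k * h + (Light W0 θ).card + Δ.card * W.card) := by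
  set H : Finset ℤ := Ico 0 (h : ℤ) with hH
  have cH : H.card = h := by simp [hH]
  set D : Finset ℤ := ((W ×ˢ W).image fun p => p.1 - p.2) \ Δ with hD
  set φ : ℤ → ℝ := fun d => (dif H d).card with hφ
  have φ0 : ∀ d, 0 ≤ φ d := fun d => Nat.cast_nonneg _
  have φh : ∀ d, φ d ≤ h := fun d => by
    have := card_dif_le H d
    rw [cH] at this
    simp only [hφ]
    exact_mod_cast this
  set Pr := (W ×ˢ W).filter (fun p => p.1 - p.2 ∈ D) with hPr
  set P' := ∑ p ∈ Pr, φ (p.1 - p.2) with hP'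
  set L : ℝ := ((Light W0 θ).card : ℝ) with hL
  have hh' : (0 : ℝ) < h := by exact_mod_cast hh
  have e1 : (W.card : ℝ) ^ 2 * h ^ 2 ≤ (n + h) * ∑ p ∈ W ×ˢ W, φ (p.1 - p.2) := by
    have h1 := energy_lb W H (Ico 0 (n + h : ℤ)) fun x hx b hb => by
      have := hn x hx
      rw [hH, mem_Ico] at hb
      rw [mem_Ico]
      omega
    rw [cH, Int.card_Ico] at h1
    have e : ((n + h : ℤ) - 0).toNat = n + h := by omega
    rw [e] at h1
    simp only [hφ]
    exact_mod_cast h1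
  have e2 : ∑ p ∈ W ×ˢ W, φ (p.1 - p.2) ≤ P' + h * (Δ.card * W.card) := by
    rw [← sum_filter_add_sum_filter_not (W ×ˢ W) (fun p => p.1 - p.2 ∈ D)]
    refine add_le_add le_rfl ?_
    have a1 : (W ×ˢ W).filter (fun p => ¬ p.1 - p.2 ∈ D) =
        (W ×ˢ W).filter (fun p => p.1 - p.2 ∈ Δ) := by
      refine filter_congr fun p hp => ?_
      rw [hD, mem_sdiff]
      have : p.1 - p.2 ∈ (W ×ˢ W).image fun p => p.1 - p.2 := mem_image_of_mem _ hp
      tauto
    rw [a1, sum_dif]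
    calc ∑ d ∈ Δ, ((dif W d).card : ℝ) * φ d ≤ ∑ _d ∈ Δ, (W.card : ℝ) * h :=
          sum_le_sum fun d _ => mul_le_mul (by exact_mod_cast card_dif_le W d) (φh d) (φ0 d)
            (Nat.cast_nonneg _)
      _ = _ := by rw [sum_const, nsmul_eq_mul]; ring
  have e3 : ∑ d ∈ D, φ d ≤ h ^ 2 := by
    have a1 := sum_dif H D fun _ => 1
    simp only [mul_one, sum_const, nsmul_eq_mul] at a1
    simp only [hφ]
    rw [← a1]
    have := card_filter_le (H ×ˢ H) (fun p => p.1 - p.2 ∈ D)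
    rw [card_product, cH, ← sq] at this
    exact_mod_cast this
  have e4 : P' ^ 2 ≤ h ^ 2 * ∑ p ∈ Pr, φ (p.1 - p.2) * (dif W (p.1 - p.2)).card := by
    have a1 := sum_dif W D φ
    have a2 := sum_dif W D fun d => φ d * (dif W d).card
    rw [hP', hPr, a1, a2]
    refine (sum_sq_le_sum_mul_sum_of_sq_le_mul D (f := φ)
      (g := fun d => (dif W d).card * (φ d * (dif W d).card)) (fun d _ => φ0 d)
      (fun d _ => by have := φ0 d; positivity) (fun d _ => le_of_eq (by ring))).trans ?_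
    exact mul_le_mul_of_nonneg_right e3 (sum_nonneg fun d _ => by have := φ0 d; positivity)
  have e5 : ∑ p ∈ Pr, φ (p.1 - p.2) * (dif W (p.1 - p.2)).card ≤ k * P' + h * L := by
    have a1 : ∑ p ∈ Pr, (((Light W0 θ).filter fun q => q.1 = p).card : ℝ) ≤ L := by
      have := sum_card_fiberwise_eq_card_filter (Light W0 θ) Pr Prod.fst
      have b := card_filter_le (Light W0 θ) (fun q => q.1 ∈ Pr)
      rw [← this] at b
      rw [hL]
      exact_mod_cast b
    calc ∑ p ∈ Pr, φ (p.1 - p.2) * (dif W (p.1 - p.2)).card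
        ≤ ∑ p ∈ Pr, (k * φ (p.1 - p.2) +
          h * (((Light W0 θ).filter fun q => q.1 = p).card : ℝ)) := by
          refine sum_le_sum fun p hp => ?_
          obtain ⟨b1, b2⟩ := mem_filter.1 hp
          obtain ⟨b3, b4⟩ := mem_product.1 b1
          have b5 := dif_le_light hW h0 hΔ hS hdeg b3 b4 (mem_sdiff.1 b2).2
          have b6 : ((dif W (p.1 - p.2)).card : ℝ) ≤
              k + ((Light W0 θ).filter fun q => q.1 = p).card := by exact_mod_cast b5
          have b7 := mul_le_mul_of_nonneg_left b6 (φ0 (p.1 - p.2))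
          have b8 := mul_le_mul_of_nonneg_right (φh (p.1 - p.2))
            (Nat.cast_nonneg (α := ℝ) ((Light W0 θ).filter fun q => q.1 = p).card)
          linarith
      _ = k * P' + h * ∑ p ∈ Pr, (((Light W0 θ).filter fun q => q.1 = p).card : ℝ) := by
          rw [sum_add_distrib, ← mul_sum, ← mul_sum]
      _ ≤ _ := by gcongr
  have L0 : 0 ≤ L := Nat.cast_nonneg _
  have k1 : (1 : ℝ) ≤ k := by exact_mod_cast hk
  have e6 : P' ≤ k * h ^ 2 + h * L := by
    by_contra hc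
    push Not at hc
    have hL0 : 0 ≤ h * L := by positivity
    have h2 : (0 : ℝ) < h ^ 2 := by positivity
    have a1 : h ^ 2 ≤ P' := by nlinarith
    have a2 : P' ^ 2 ≤ h ^ 2 * (k * P' + h * L) :=
      e4.trans (mul_le_mul_of_nonneg_left e5 h2.le)
    have a3 : (k * h ^ 2 + h * L) * P' < P' * P' :=
      mul_lt_mul_of_pos_right hc (by linarith)
    have a4 : h ^ 2 * (h * L) ≤ P' * (h * L) := mul_le_mul_of_nonneg_right a1 hL0
    nlinarith
  have e7 : (W.card : ℝ) ^ 2 * h * h ≤ (n + h) * (k * h + L + Δ.card * W.card) * h := by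
    have a1 := mul_le_mul_of_nonneg_left (e2.trans (add_le_add e6 le_rfl))
      (by positivity : (0 : ℝ) ≤ n + h)
    calc (W.card : ℝ) ^ 2 * h * h = (W.card : ℝ) ^ 2 * h ^ 2 := by ring
      _ ≤ _ := e1.trans a1
      _ = _ := by ring
  exact le_of_mul_le_mul_right e7 hh'

end Pool.Agent.P.MP_ca07c0_co.Neg
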