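import Mathlib

/-!
A tail bound for the number of cells met by a random set (helper file only).
-/

namespace Pool.Agent.P.MP_ca07c0_co.Neg

open Finset

theorem sum_powerset_split {Q Ω : Finset ℤ} (h : Q ⊆ Ω) (f g : Finset ℤ → ℝ) :
    ∑ A ∈ Ω.powerset, f (A ∩ Q) * g (A \ Q) =
      (∑ B ∈ Q.powerset, f B) * ∑ D ∈ (Ω \ Q).powerset, g D := by
  rw [sum_mul_sum, ← sum_product']
  refine sum_nbij' (fun A => (A ∩ Q, A \ Q)) (fun p => p.1 ∪ p.2) (fun A hA => ?_)
    (fun p hp => ?_) (fun A _ => ?_) (fun p hp => ?_) fun A _ => rfl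
  · exact mem_product.2 ⟨mem_powerset.2 inter_subset_right,
      mem_powerset.2 (sdiff_subset_sdiff (mem_powerset.1 hA) Subset.rfl)⟩
  · obtain ⟨h1, h2⟩ := mem_product.1 hp
    exact mem_powerset.2 (union_subset ((mem_powerset.1 h1).trans h)
      ((mem_powerset.1 h2).trans sdiff_subset))
  · ext x
    simp only [mem_union, mem_inter, mem_sdiff]
    tauto
  · obtain ⟨h1, h2⟩ := mem_product.1 hp
    have a := mem_powerset.1 h1
    have b := mem_powerset.1 h2
    refine Prod.ext ?_ ?_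
    · ext x
      have := @a x
      have := fun hx => (mem_sdiff.1 (@b x hx)).2
      simp only [mem_union, mem_inter]
      tauto
    · ext x
      have := @a x
      have := fun hx => (mem_sdiff.1 (@b x hx)).2
      simp only [mem_union, mem_sdiff]
      tauto

theorem sum_cell (Q : Finset ℤ) (z : ℝ) :
    ∑ B ∈ Q.powerset, (if B = ∅ then 1 else z) ≤
      2 ^ Q.card * Real.exp ((z - 1) * (1 - (1 / 2) ^ Q.card)) := by
  have h1 : ∑ B ∈ Q.powerset, (if B = ∅ then 1 else z) =
      ∑ B ∈ Q.powerset, (z + if B = ∅ then 1 - z else 0) :=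
    sum_congr rfl fun B _ => by split_ifs <;> ring
  rw [h1, sum_add_distrib, sum_ite_eq', if_pos (empty_mem_powerset Q), sum_const, card_powerset,
    nsmul_eq_mul]
  refine le_trans (le_of_eq ?_) (mul_le_mul_of_nonneg_left (Real.add_one_le_exp _) (by positivity))
  have : (2 : ℝ) ^ Q.card * (1 / 2) ^ Q.card = 1 := by rw [← mul_pow]; norm_num
  push_cast
  linear_combination (z - 1) * this

theorem sum_cells (L : Finset ℤ) (Q : ℤ → Finset ℤ) {z : ℝ} (hz : 0 ≤ z)
    (hd : ∀ l l', l ≠ l' → Disjoint (Q l) (Q l')) : ∀ Ω : Finset ℤ, (∀ l ∈ L, Q l ⊆ Ω) →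
    ∑ A ∈ Ω.powerset, ∏ l ∈ L, (if A ∩ Q l = ∅ then 1 else z) ≤
      2 ^ Ω.card * Real.exp ((z - 1) * ∑ l ∈ L, (1 - (1 / 2) ^ (Q l).card)) := by
  induction L using Finset.induction_on with
  | empty => intro Ω _; simp
  | insert a L ha ih =>
    intro Ω h
    have hne : ∀ l ∈ L, l ≠ a := fun l hl e => ha (e ▸ hl)
    have h1 : ∀ A : Finset ℤ, ∏ l ∈ insert a L, (if A ∩ Q l = ∅ then 1 else z) =
        (if A ∩ Q a = ∅ then 1 else z) * ∏ l ∈ L, (if (A \ Q a) ∩ Q l = ∅ then 1 else z) := by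
      intro A
      rw [prod_insert ha]
      congr 1
      refine prod_congr rfl fun l hl => ?_
      have : (A \ Q a) ∩ Q l = A ∩ Q l := by
        ext x
        have : x ∈ Q l → x ∉ Q a := fun h1 => disjoint_left.1 (hd l a (hne l hl)) h1
        simp only [mem_inter, mem_sdiff]
        tauto
      rw [this]
    simp only [h1]
    have ha' := h a (mem_insert_self _ _)
    rw [sum_powerset_split ha' (fun B => if B = ∅ then 1 else z)
      fun D => ∏ l ∈ L, (if D ∩ Q l = ∅ then 1 else z)]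
    have h2 := ih (Ω \ Q a) fun l hl =>
      subset_sdiff.2 ⟨h l (mem_insert_of_mem hl), hd l a (hne l hl)⟩
    refine (mul_le_mul (sum_cell (Q a) z) h2 (sum_nonneg fun D _ => prod_nonneg fun l _ => ?_)
      (by positivity)).trans (le_of_eq ?_)
    · split_ifs
      · exact zero_le_one
      · exact hz
    · rw [sum_insert ha, mul_add, Real.exp_add, ← card_sdiff_add_card_eq_card ha', pow_add]
      ring

theorem tail {U Ω : Finset ℤ} (h : U ⊆ Ω) (f : ℤ → ℤ) {s : ℝ} (hs : 0 ≤ s)
    (hμ : ∑ l ∈ U.image f, (1 - (1 / 2 : ℝ) ^ (U.filter fun y => f y = l).card) ≤ 0.6875 * s) :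
    ((Ω.powerset.filter fun A => 0.7 * s ≤ ((A ∩ U).image f).card).card : ℝ) ≤
      2 ^ Ω.card * Real.exp (-0.00005 * s) := by
  have z1 : Real.exp 0.01 ≤ 1 / (1 - 0.01) :=
    Real.exp_bound_div_one_sub_of_interval (by norm_num) (by norm_num)
  have z2 : 1 ≤ Real.exp 0.01 := Real.one_le_exp (by norm_num)
  have h1 := sum_cells (U.image f) (fun l => U.filter fun y => f y = l) (Real.exp_pos 0.01).le
    (fun l l' hne => disjoint_left.2 fun y a b =>
      hne ((mem_filter.1 a).2.symm.trans (mem_filter.1 b).2)) Ω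
    fun l _ => (filter_subset _ _).trans h
  have h2 : ∀ A : Finset ℤ, ∏ l ∈ U.image f,
      (if A ∩ (U.filter fun y => f y = l) = ∅ then 1 else Real.exp 0.01) =
      Real.exp (((A ∩ U).image f).card * 0.01) := fun A => by
    rw [prod_ite, prod_const_one, one_mul, prod_const, Real.exp_nat_mul]
    congr 2
    ext l
    simp only [mem_filter, mem_image, mem_inter, ← ne_eq, ← nonempty_iff_ne_empty]
    constructor
    · rintro ⟨-, y, hy⟩
      obtain ⟨a, b⟩ := mem_inter.1 hy
      exact ⟨y, ⟨a, (mem_filter.1 b).1⟩, (mem_filter.1 b).2⟩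
    · rintro ⟨y, ⟨a, b⟩, c⟩
      exact ⟨⟨y, b, c⟩, y, mem_inter.2 ⟨a, mem_filter.2 ⟨b, c⟩⟩⟩
  simp only [h2] at h1
  have h3 : ((Ω.powerset.filter fun A => 0.7 * s ≤ ((A ∩ U).image f).card).card : ℝ) *
      Real.exp (0.007 * s) ≤ ∑ A ∈ Ω.powerset, Real.exp (((A ∩ U).image f).card * 0.01) := by
    rw [← nsmul_eq_mul, ← sum_const]
    refine (sum_le_sum fun A hA => Real.exp_le_exp.2 ?_).trans
      (sum_le_sum_of_subset_of_nonneg (filter_subset _ _) fun A _ _ => (Real.exp_pos _).le)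
    have := (mem_filter.1 hA).2
    linarith
  have h4 : (Real.exp 0.01 - 1) * ∑ l ∈ U.image f,
      (1 - (1 / 2 : ℝ) ^ (U.filter fun y => f y = l).card) ≤ -0.00005 * s + 0.007 * s := by
    have a := mul_le_mul_of_nonneg_left hμ (sub_nonneg.2 z2)
    have b : (Real.exp 0.01 - 1) * (0.6875 * s) ≤ (1 / 99) * (0.6875 * s) := by
      gcongr
      norm_num at z1 ⊢
      linarith
    linarith
  refine le_of_mul_le_mul_right (h3.trans (h1.trans ?_)) (Real.exp_pos _)
  rw [mul_assoc, ← Real.exp_add]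
  gcongr

theorem half (Ω : Finset ℤ) :
    2 ^ Ω.card ≤ 2 * (Ω.powerset.filter fun A => Ω.card ≤ 2 * A.card).card := by
  have h1 := card_filter_add_card_filter_not (s := Ω.powerset) fun A => Ω.card ≤ 2 * A.card
  have h2 : (Ω.powerset.filter fun A => ¬ Ω.card ≤ 2 * A.card).card ≤
      (Ω.powerset.filter fun A => Ω.card ≤ 2 * A.card).card := by
    refine card_le_card_of_injOn (fun A => Ω \ A) (fun A hA => ?_) fun A hA B hB h => ?_
    · obtain ⟨a, b⟩ := mem_filter.1 hA
      have := card_sdiff_add_card_eq_card (mem_powerset.1 a)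
      exact mem_filter.2 ⟨mem_powerset.2 sdiff_subset, by simp only; omega⟩
    · have a := mem_powerset.1 (mem_filter.1 hA).1
      have b := mem_powerset.1 (mem_filter.1 hB).1
      simp only at h
      rw [← Finset.sdiff_sdiff_eq_self a, h, Finset.sdiff_sdiff_eq_self b]
  rw [card_powerset] at h1
  omega

end Pool.Agent.P.MP_ca07c0_co.Neg
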