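import Pool.Agent.P.MP_ca07c0_co.Neg.Stage
import Pool.Agent.P.MP_ca07c0_co.Neg.Prob

/-!
A dense set of integers without large Sidon subsets (helper file only).
-/

namespace Pool.Agent.P.MP_ca07c0_co.Neg

open Finset

theorem exists_dense (m0 : ℕ) : ∃ t ≥ m0, ∃ A : Finset ℤ, A.card = 2 * t ^ 2 ∧
    ∀ I ⊆ A, Sidon I → (I.card : ℝ) ≤ 1.408 * t := by
  obtain ⟨X, δ, lam, hX, hδ, hδX, hl, hl1, hF⟩ := family
  obtain ⟨s0, hs0⟩ := struct hX hδ hδX hl hl1
  obtain ⟨m, hm⟩ : ∃ m, m = s0 + 2 * m0 + 100000 := ⟨_, rfl⟩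
  obtain ⟨s, hs⟩ : ∃ s, s = (2 ^ 24 * 2 ^ m) ^ 8 := ⟨_, rfl⟩
  have sm : m ≤ s := by
    have a : m ≤ 2 ^ m := Nat.lt_two_pow_self.le
    have b : 2 ^ m ≤ 2 ^ 24 * 2 ^ m := Nat.le_mul_of_pos_left _ (by positivity)
    rw [hs]
    exact (a.trans b).trans (Nat.le_self_pow (by norm_num) _)
  obtain ⟨t, ht⟩ : 2 ∣ s := by
    rw [hs]
    exact Dvd.dvd.pow (Dvd.dvd.mul_right (dvd_pow_self 2 (by norm_num)) _) (by norm_num)
  obtain ⟨F, h1, h2, h3⟩ := hF m s hs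
  clear hs
  set Ω := Ico (0 : ℤ) (s ^ 2 : ℕ) with hΩ
  have cΩ : Ω.card = s ^ 2 := by rw [hΩ, Int.card_Ico, sub_zero, Int.toNat_natCast]
  have h4 : ∀ p : Finset ℤ × Finset ℤ, ∃ U : Finset ℤ, ∃ f : ℤ → ℤ, p ∈ F → U ⊆ p.2 ∧
      ∑ l ∈ U.image f, (1 - (1 / 2 : ℝ) ^ (U.filter fun y => f y = l).card) ≤ 0.6875 * s ∧
      ∀ I ⊆ p.2, Sidon I → (I.card : ℝ) ≤ ((I ∩ U).image f).card + 0.003 * s := fun p => by
    by_cases h : p ∈ F
    · obtain ⟨a, b, c, -⟩ := h2 p h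
      obtain ⟨U, d, f, e⟩ := hs0 s (by omega) p.2 (fun x hx => mem_Ico.1 (a hx)) b c
      exact ⟨U, f, fun _ => ⟨d, e⟩⟩
    · exact ⟨∅, id, fun h' => absurd h' h⟩
  choose U f h4 using h4
  have s0' : (100000 : ℝ) ≤ s := by exact_mod_cast (by omega : 100000 ≤ s)
  set Bad := F.biUnion fun p =>
    Ω.powerset.filter fun A => 0.7 * (s : ℝ) ≤ ((A ∩ U p).image (f p)).card with hBad
  have h5 : (Bad.card : ℝ) < (Ω.powerset.filter fun A => Ω.card ≤ 2 * A.card).card := by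
    have a1 : (2 : ℝ) ^ Ω.card ≤ 2 * (Ω.powerset.filter fun A => Ω.card ≤ 2 * A.card).card := by
      exact_mod_cast half Ω
    have a2 : (Bad.card : ℝ) ≤ F.card * (2 ^ Ω.card * Real.exp (-0.00005 * s)) := by
      calc (Bad.card : ℝ) ≤ ∑ p ∈ F, ((Ω.powerset.filter fun A =>
            0.7 * (s : ℝ) ≤ ((A ∩ U p).image (f p)).card).card : ℝ) := by
            exact_mod_cast card_biUnion_le
        _ ≤ ∑ _p ∈ F, 2 ^ Ω.card * Real.exp (-0.00005 * s) := sum_le_sum fun p hp =>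
            tail ((h4 p hp).1.trans (h2 p hp).1) (f p) (by linarith) (h4 p hp).2.1
        _ = _ := by rw [sum_const, nsmul_eq_mul]
    have a3 : Real.exp (0.00002 * s) * Real.exp (-0.00005 * s) < 1 / 2 := by
      rw [← Real.exp_add, lt_div_iff₀ (by norm_num)]
      have b1 := Real.add_one_le_exp (0.00003 * s)
      have b2 : Real.exp (0.00002 * s + -0.00005 * s) * Real.exp (0.00003 * s) = 1 := by
        rw [← Real.exp_add, ← Real.exp_zero]
        congr 1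
        ring
      have b3 := Real.exp_pos (0.00002 * s + -0.00005 * s)
      nlinarith
    have a4 : (0 : ℝ) < 2 ^ Ω.card := by positivity
    calc (Bad.card : ℝ) ≤ Real.exp (0.00002 * s) * (2 ^ Ω.card * Real.exp (-0.00005 * s)) :=
          a2.trans (by gcongr)
      _ = 2 ^ Ω.card * (Real.exp (0.00002 * s) * Real.exp (-0.00005 * s)) := by ring
      _ < 2 ^ Ω.card * (1 / 2) := by gcongr
      _ ≤ _ := by linarith
  obtain ⟨A, hA, hB⟩ := exists_mem_notMem_of_card_lt_card (by exact_mod_cast h5 :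
    Bad.card < (Ω.powerset.filter fun A => Ω.card ≤ 2 * A.card).card)
  obtain ⟨a1, a2⟩ := mem_filter.1 hA
  obtain ⟨A', b1, b2⟩ := exists_subset_card_eq (s := A) (n := 2 * t ^ 2) (by
    rw [cΩ, ht] at a2
    nlinarith)
  refine ⟨t, by omega, A', b2, fun I hI hS => ?_⟩
  have IA := hI.trans b1
  obtain ⟨p, hp, c⟩ := h1 I hS (IA.trans (mem_powerset.1 a1))
  have c1 := (h4 p hp).2.2 (I ∩ p.2) inter_subset_right (Sidon.mono _ _ inter_subset_left hS)
  have c2 : (((A ∩ U p).image (f p)).card : ℝ) < 0.7 * s := by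
    by_contra hc
    exact hB (mem_biUnion.2 ⟨p, hp, mem_filter.2 ⟨a1, not_lt.1 hc⟩⟩)
  have c3 : (((I ∩ p.2 ∩ U p).image (f p)).card : ℝ) ≤ ((A ∩ U p).image (f p)).card := by
    exact_mod_cast card_le_card (image_subset_image
      (inter_subset_inter_right (inter_subset_left.trans IA)))
  have c4 : (I.card : ℝ) ≤ p.1.card + (I ∩ p.2).card := by
    have : I ⊆ p.1 ∪ I ∩ p.2 := fun x hx => by
      have := c hx
      simp only [mem_union, mem_inter] at this ⊢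
      tauto
    exact_mod_cast (card_le_card this).trans (card_union_le _ _)
  have c5 := (h2 p hp).2.2.2
  have c6 : (s : ℝ) = 2 * t := by exact_mod_cast ht
  linarith

theorem not_tendsto :
    ¬ (Filter.Tendsto
      (fun N : ℕ =>
        ((sSup {k : ℕ | ∀ A : Finset ℝ, A.card = N →
            ∃ S ⊆ A, S.card = k ∧
              ∀ a ∈ S, ∀ b ∈ S, ∀ c ∈ S, ∀ d ∈ S,
                a + b = c + d → (a = c ∧ b = d) ∨ (a = d ∧ b = c)} : ℕ) : ℝ)
          / Real.sqrt (N : ℝ))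
      Filter.atTop (nhds 1)) := by
  classical
  intro h
  obtain ⟨N0, hN0⟩ := Filter.eventually_atTop.1
    (h.eventually (lt_mem_nhds (by norm_num : (0.999 : ℝ) < 1)))
  obtain ⟨t, ht, A, h1, h2⟩ := exists_dense (N0 + 1)
  have h3 := hN0 (2 * t ^ 2) (by nlinarith)
  have t0 : (0 : ℝ) < t := by exact_mod_cast (by omega : 0 < t)
  have h4 : 1.414 * (t : ℝ) ≤ Real.sqrt ((2 * t ^ 2 : ℕ) : ℝ) := by
    refine Real.le_sqrt_of_sq_le ?_
    push_cast
    nlinarith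
  have h5 : sSup {k : ℕ | ∀ A : Finset ℝ, A.card = 2 * t ^ 2 →
      ∃ S ⊆ A, S.card = k ∧ ∀ a ∈ S, ∀ b ∈ S, ∀ c ∈ S, ∀ d ∈ S,
        a + b = c + d → (a = c ∧ b = d) ∨ (a = d ∧ b = c)} ≤ ⌊1.408 * (t : ℝ)⌋₊ := by
    refine csSup_le' fun k hk => ?_
    obtain ⟨S, a1, a2, a3⟩ := hk (A.image (Int.cast : ℤ → ℝ))
      (by rw [card_image_of_injective _ Int.cast_injective, h1])
    obtain ⟨I, b1, rfl⟩ := subset_image_iff.1 a1
    rw [card_image_of_injective _ Int.cast_injective] at a2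
    refine Nat.le_floor ?_
    rw [← a2]
    refine h2 I b1 fun a ha b hb c hc d hd e => ?_
    have := a3 _ (mem_image_of_mem _ ha) _ (mem_image_of_mem _ hb) _ (mem_image_of_mem _ hc) _
      (mem_image_of_mem _ hd) (by exact_mod_cast e)
    exact_mod_cast this
  have h6 := ((Nat.cast_le (α := ℝ)).2 h5).trans (Nat.floor_le (by positivity))
  rw [lt_div_iff₀ (by linarith)] at h3
  linarith

end Pool.Agent.P.MP_ca07c0_co.Neg
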