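import Pool.Agent.P.MP_ca07c0_co.Neg.Struct

/-!
Iterating the container lemma (helper file only).
-/

namespace Pool.Agent.P.MP_ca07c0_co.Neg

open Finset

theorem cover_small {C : Finset ℤ} {s : ℕ} {u : ℝ} (hu : 2 ^ 24 ≤ u) (hs : u ^ 8 ≤ s)
    (hn : ∀ x ∈ C, 0 ≤ x ∧ x < (s ^ 2 : ℕ)) (hC : Cover Sidon C (1 / 8) (1 / u ^ 10)) :
    (C.card : ℝ) ≤ u ^ 8 * s / 512 := by
  have u1 : 1 ≤ u := le_trans (by norm_num) hu
  have u0 : 0 < u := by linarith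
  have h10 : 1 ≤ u ^ 10 := one_le_pow₀ u1
  obtain ⟨W, hW, h1, h2⟩ := cover_bounds (by norm_num) (by positivity)
    (by rw [div_le_one (by positivity)]; exact h10) hC
  have h3 := h2 W.card (Nat.cast_nonneg _)
  have h4 : ((Sol W).card : ℝ) ≤ 2 * W.card ^ 2 + (Light W W.card).card := by
    exact_mod_cast sol_le W
  have h5 : (W.card : ℝ) ^ 4 ≤ 2 * s ^ 2 * (Sol W).card := by
    exact_mod_cast sol_lb W (s ^ 2) fun x hx => hn x (hW hx)
  rw [div_div_eq_mul_div, div_one] at h3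
  obtain ⟨w, hw⟩ : ∃ w : ℝ, w = W.card := ⟨_, rfl⟩
  rw [← hw] at h1 h3 h4 h5
  have w0 : 0 ≤ w := by rw [hw]; positivity
  have c1 : 4 * (1 / 8) * (C.card : ℝ) ≤ w := by linarith
  have a1 : 24 * w * (4 * (1 / 8) * (C.card : ℝ) * (4 * u ^ 10)) ≤ 24 * w * (w * (4 * u ^ 10)) := by
    gcongr
  have a2 : 512 * (4 * (1 / 8) * (C.card : ℝ) * (4 * u ^ 10) ^ 3) ≤
      512 * (w * (4 * u ^ 10) ^ 3) := by gcongr
  have a3 : w ^ 2 * 1 ≤ w ^ 2 * u ^ 10 := by gcongr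
  have a4 : ((Sol W).card : ℝ) ≤ 98 * w ^ 2 * u ^ 10 + 32768 * w * u ^ 30 := by nlinarith
  have a5 : w ^ 4 ≤ 2 * s ^ 2 * (98 * w ^ 2 * u ^ 10 + 32768 * w * u ^ 30) :=
    h5.trans (mul_le_mul_of_nonneg_left a4 (by positivity))
  have s0 : (0 : ℝ) < s := lt_of_lt_of_le (by positivity) hs
  by_contra hc
  have b0 : u ^ 8 * s / 1024 < w := by
    push Not at hc
    linarith
  have wp : 0 < w := lt_trans (by positivity) b0
  have b1 : w ^ 3 ≤ 196 * s ^ 2 * u ^ 10 * w + 65536 * s ^ 2 * u ^ 30 := by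
    refine le_of_mul_le_mul_right ?_ wp
    calc w ^ 3 * w = w ^ 4 := by ring
      _ ≤ _ := a5
      _ = _ := by ring
  have b2 : (u ^ 8 * s / 1024) ^ 2 < w ^ 2 := by gcongr
  have b3 : (u ^ 8 * s / 1024) ^ 3 < w ^ 3 := by gcongr
  have u2 : (2 ^ 24) ^ 2 ≤ u ^ 2 := by gcongr
  have u6 : u ^ 2 ≤ u ^ 6 := pow_le_pow_right₀ u1 (by norm_num)
  have b4 : 392 * s ^ 2 * u ^ 10 ≤ (u ^ 8 * s / 1024) ^ 2 := by
    calc (392 : ℝ) * s ^ 2 * u ^ 10 = (392 * 1024 ^ 2) * (s ^ 2 * u ^ 10 / 1024 ^ 2) := by ring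
      _ ≤ u ^ 6 * (s ^ 2 * u ^ 10 / 1024 ^ 2) := by
          gcongr
          exact le_trans (by norm_num) (u2.trans u6)
      _ = _ := by ring
  have b5 : 131072 * s ^ 2 * u ^ 30 ≤ (u ^ 8 * s / 1024) ^ 3 := by
    calc (131072 : ℝ) * s ^ 2 * u ^ 30
        = (131072 * 1024 ^ 3) * (s ^ 2 * u ^ 30 / 1024 ^ 3) := by ring
      _ ≤ u ^ 2 * (s ^ 2 * u ^ 30 / 1024 ^ 3) := by
          gcongr
          exact le_trans (by norm_num) u2
      _ = u ^ 8 * (s ^ 2 * u ^ 24 / 1024 ^ 3) := by ring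
      _ ≤ s * (s ^ 2 * u ^ 24 / 1024 ^ 3) := by gcongr
      _ = _ := by ring
  have b6 := mul_lt_mul_of_pos_right (b4.trans_lt b2) wp
  have b7 : w ^ 2 * w = w ^ 3 := by ring
  linarith

theorem step {s : ℕ} {u : ℝ} (hu : 2 ^ 24 ≤ u) (hs : u ^ 8 ≤ s) (V : Finset ℤ)
    (hn : ∀ x ∈ V, 0 ≤ x ∧ x < (s ^ 2 : ℕ)) (hV : (V.card : ℝ) ≤ u ^ 8 * s) :
    ∃ F : Finset (Finset ℤ), (∀ I, Sidon I → I ⊆ V → ∃ V' ∈ F, I ⊆ V') ∧
      (∀ V' ∈ F, V' ⊆ V ∧ (V'.card : ℝ) ≤ (u / 2) ^ 8 * s) ∧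
      (F.card : ℝ) ≤ Real.exp (81 * s / u) := by
  have u1 : 1 ≤ u := le_trans (by norm_num) hu
  have u0 : 0 < u := by linarith
  have h10 : 1 ≤ u ^ 10 := one_le_pow₀ u1
  obtain ⟨F, h1, h2, h3⟩ := containers (lam := 1 / u ^ 10) (δ := 1 / 8) Sidon.mono sidon_loc
    sidon_empty (by positivity) (by rw [div_le_one (by positivity)]; exact h10) (by norm_num)
    (by norm_num) V
  have s0 : (0 : ℝ) ≤ s := Nat.cast_nonneg _
  have e1 : 1 / u ^ 10 * V.card ≤ s / u ^ 2 := by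
    calc 1 / u ^ 10 * V.card ≤ 1 / u ^ 10 * (u ^ 8 * s) := by gcongr
      _ = _ := by field_simp
  refine ⟨F.image fun p => p.1 ∪ p.2, fun I a b => ?_, fun V' hV' => ?_, ?_⟩
  · obtain ⟨p, hp, c⟩ := h1 I a b
    exact ⟨_, mem_image_of_mem _ hp, c⟩
  · obtain ⟨p, hp, rfl⟩ := mem_image.1 hV'
    obtain ⟨a, b, c⟩ := h2 p hp
    refine ⟨a, ?_⟩
    have d1 := cover_small hu hs (fun x hx => hn x (a (mem_union_right _ hx))) b
    have d2 : ((p.1 ∪ p.2).card : ℝ) ≤ p.1.card + p.2.card := by exact_mod_cast card_union_le _ _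
    have d3 : s / u ^ 2 ≤ (s : ℝ) := div_le_self s0 (one_le_pow₀ u1)
    have d4 : (4096 : ℝ) * s ≤ u ^ 8 * s := by
      gcongr
      exact le_trans (by norm_num) (hu.trans (le_self_pow₀ u1 (by norm_num)))
    have d5 : 1 / u ^ 10 / (1 / 8) * V.card = 8 * (1 / u ^ 10 * V.card) := by ring
    have d6 : (u / 2) ^ 8 * s = u ^ 8 * s / 256 := by ring
    linarith
  · refine le_trans (by exact_mod_cast card_image_le) (h3.trans (Real.exp_le_exp.2 ?_))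
    have d1 : -Real.log (1 / u ^ 10) ≤ 10 * u := by
      rw [one_div, Real.log_inv, neg_neg, Real.log_pow]
      have := Real.log_le_sub_one_of_pos u0
      push_cast
      linarith
    have d0 : 0 ≤ -Real.log (1 / u ^ 10) := by
      rw [one_div, Real.log_inv, neg_neg]
      exact Real.log_nonneg h10
    have d2 : 1 / u ^ 10 * V.card * -Real.log (1 / u ^ 10) ≤ s / u ^ 2 * (10 * u) :=
      mul_le_mul e1 d1 d0 (by positivity)
    have d3 : s / u ^ 2 * (10 * u) = 10 * (s / u) := by field_simp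
    have d4 : s / u ^ 2 ≤ s / u := by
      gcongr
      exact le_self_pow₀ u1 (by norm_num)
    calc _ = 1 / u ^ 10 * V.card + 8 * (1 / u ^ 10 * V.card * -Real.log (1 / u ^ 10)) := by ring
      _ ≤ 81 * (s / u) := by linarith
      _ = _ := by ring

theorem glue {β γ : Type*} [DecidableEq γ] (F : Finset β) (G : β → Finset γ) {a b : ℝ}
    (hF : (F.card : ℝ) ≤ Real.exp a) (hG : ∀ x ∈ F, ((G x).card : ℝ) ≤ Real.exp b) :
    ((F.biUnion G).card : ℝ) ≤ Real.exp (a + b) := by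
  calc ((F.biUnion G).card : ℝ) ≤ ∑ x ∈ F, ((G x).card : ℝ) := by exact_mod_cast card_biUnion_le
    _ ≤ ∑ _x ∈ F, Real.exp b := sum_le_sum hG
    _ ≤ _ := by
        rw [sum_const, nsmul_eq_mul, Real.exp_add]
        gcongr

theorem stages {s : ℕ} {u : ℝ} (hu : 2 ^ 24 ≤ u) (i : ℕ) : (u * 2 ^ i) ^ 8 ≤ s →
    ∀ V : Finset ℤ, (∀ x ∈ V, 0 ≤ x ∧ x < (s ^ 2 : ℕ)) → (V.card : ℝ) ≤ (u * 2 ^ i) ^ 8 * s →
    ∃ F : Finset (Finset ℤ), (∀ I, Sidon I → I ⊆ V → ∃ V' ∈ F, I ⊆ V') ∧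
      (∀ V' ∈ F, V' ⊆ V ∧ (V'.card : ℝ) ≤ u ^ 8 * s) ∧
      (F.card : ℝ) ≤ Real.exp (81 * s / u - 81 * s / (u * 2 ^ i)) := by
  have u0 : 0 < u := lt_of_lt_of_le (by norm_num) hu
  induction i with
  | zero =>
    intro _ V _ hV
    refine ⟨{V}, fun I _ h => ⟨V, mem_singleton_self _, h⟩, fun V' h => ?_, by simp⟩
    rw [mem_singleton.1 h]
    exact ⟨Subset.rfl, by simpa using hV⟩
  | succ i ih =>
    intro hs V hn hV
    have h2 : (1 : ℝ) ≤ 2 ^ (i + 1) := one_le_pow₀ (by norm_num)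
    obtain ⟨F, h1, h3, h4⟩ := step (hu.trans (le_mul_of_one_le_right u0.le h2)) hs V hn hV
    have e : u * 2 ^ (i + 1) / 2 = u * 2 ^ i := by ring
    rw [e] at h3
    have hs' : (u * 2 ^ i) ^ 8 ≤ s := by
      refine le_trans ?_ hs
      gcongr <;> norm_num
    have h5 : ∀ V' : Finset ℤ, ∃ F' : Finset (Finset ℤ), V' ∈ F →
        (∀ I, Sidon I → I ⊆ V' → ∃ V'' ∈ F', I ⊆ V'') ∧
        (∀ V'' ∈ F', V'' ⊆ V' ∧ (V''.card : ℝ) ≤ u ^ 8 * s) ∧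
        (F'.card : ℝ) ≤ Real.exp (81 * s / u - 81 * s / (u * 2 ^ i)) := fun V' => by
      by_cases h : V' ∈ F
      · obtain ⟨F', hF'⟩ := ih hs' V' (fun x hx => hn x ((h3 V' h).1 hx)) (h3 V' h).2
        exact ⟨F', fun _ => hF'⟩
      · exact ⟨∅, fun h' => absurd h' h⟩
    choose G hG using h5
    refine ⟨F.biUnion G, fun I a b => ?_, fun W hW => ?_, ?_⟩
    · obtain ⟨V', c, d⟩ := h1 I a b
      obtain ⟨W, c', d'⟩ := (hG V' c).1 I a d
      exact ⟨W, mem_biUnion.2 ⟨V', c, c'⟩, d'⟩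
    · obtain ⟨V', c, d⟩ := mem_biUnion.1 hW
      exact ⟨((hG V' c).2.1 W d).1.trans (h3 V' c).1, ((hG V' c).2.1 W d).2⟩
    · refine (glue F G h4 fun V' c => (hG V' c).2.2).trans (le_of_eq ?_)
      congr 1
      field_simp
      ring

theorem family : ∃ X δ lam : ℝ, 0 < X ∧ 0 < δ ∧ 4 * δ * X ≤ 1 / 1000 ∧ 0 < lam ∧ lam ≤ 1 ∧
    ∀ m s : ℕ, s = (2 ^ 24 * 2 ^ m) ^ 8 → ∃ F : Finset (Finset ℤ × Finset ℤ),
      (∀ I, Sidon I → I ⊆ Ico (0 : ℤ) (s ^ 2 : ℕ) → ∃ p ∈ F, I ⊆ p.1 ∪ p.2) ∧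
      (∀ p ∈ F, p.2 ⊆ Ico (0 : ℤ) (s ^ 2 : ℕ) ∧ (p.2.card : ℝ) ≤ X * s ∧
        Cover Sidon p.2 δ lam ∧ (p.1.card : ℝ) ≤ s / 1000) ∧
      (F.card : ℝ) ≤ Real.exp (0.00002 * s) := by
  obtain ⟨u, hu⟩ : ∃ u : ℝ, u = 2 ^ 24 := ⟨_, rfl⟩
  obtain ⟨X, hX⟩ : ∃ X : ℝ, X = u ^ 8 := ⟨_, rfl⟩
  have X1 : 1 ≤ X := by rw [hX]; exact one_le_pow₀ (by rw [hu]; norm_num)
  obtain ⟨y, hy⟩ : ∃ y : ℝ, y = 1000000000 * X ^ 2 := ⟨_, rfl⟩
  have X2 : X ≤ X ^ 2 := le_self_pow₀ X1 (by norm_num)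
  have y1 : 1 ≤ y := by linarith
  have y2 : y ≤ y ^ 2 := le_self_pow₀ y1 (by norm_num)
  have l1 : 1 / y ^ 2 ≤ 1 := by rw [div_le_one (by positivity)]; linarith
  refine ⟨X, 1 / (4000 * X), 1 / y ^ 2, by linarith, by positivity, le_of_eq (by field_simp; ring),
    by positivity, l1, fun m s hs => ?_⟩
  have hs' : (u * 2 ^ m) ^ 8 = s := by rw [hs, hu]; norm_num
  have s0 : (0 : ℝ) ≤ s := Nat.cast_nonneg _
  obtain ⟨F, h1, h2, h3⟩ := stages hu.ge m hs'.le (Ico (0 : ℤ) (s ^ 2 : ℕ))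
    (fun x hx => mem_Ico.1 hx)
    (by rw [hs', Int.card_Ico, sub_zero, Int.toNat_natCast, Nat.cast_pow, sq])
  have h5 := fun V => containers (lam := 1 / y ^ 2) (δ := 1 / (4000 * X)) Sidon.mono sidon_loc
    sidon_empty (by positivity) l1 (by positivity)
    (by rw [div_le_one (by positivity)]; linarith) V
  choose G g1 g2 g3 using h5
  have e1 : ∀ V ∈ F, 1 / y ^ 2 / (1 / (4000 * X)) * V.card ≤ 4000 * X ^ 2 / y ^ 2 * s := by
    intro V hV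
    have := (h2 V hV).2
    rw [← hX] at this
    calc _ ≤ 1 / y ^ 2 / (1 / (4000 * X)) * (X * s) := by gcongr
      _ = _ := by field_simp
  have e2 : X ^ 2 / y = 1 / 1000000000 := by rw [hy]; field_simp
  have e3 : X ^ 2 / y ^ 2 ≤ X ^ 2 / y := by gcongr
  refine ⟨F.biUnion G, fun I a b => ?_, fun p hp => ?_, ?_⟩
  · obtain ⟨V, c, d⟩ := h1 I a b
    obtain ⟨p, c', d'⟩ := g1 V I a d
    exact ⟨p, mem_biUnion.2 ⟨V, c, c'⟩, d'⟩
  · obtain ⟨V, c, d⟩ := mem_biUnion.1 hp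
    obtain ⟨a1, a2, a3⟩ := g2 V p d
    have a4 : p.2 ⊆ V := subset_union_right.trans a1
    refine ⟨a4.trans (h2 V c).1, ?_, a2, a3.trans ((e1 V c).trans ?_)⟩
    · rw [hX]
      exact le_trans (by exact_mod_cast card_le_card a4) (h2 V c).2
    · calc 4000 * X ^ 2 / y ^ 2 * (s : ℝ) = 4000 * (X ^ 2 / y ^ 2) * (s : ℝ) := by ring
        _ ≤ 1 / 1000 * (s : ℝ) := by gcongr; linarith
        _ = _ := by ring
  · refine (glue F G (b := 0.00001 * s) h3 fun V c => (g3 V).trans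
      (Real.exp_le_exp.2 ?_)).trans (Real.exp_le_exp.2 ?_)
    · have d1 : -Real.log (1 / y ^ 2) ≤ 2 * y := by
        rw [one_div, Real.log_inv, neg_neg, Real.log_pow]
        have := Real.log_le_sub_one_of_pos (by linarith : 0 < y)
        push_cast
        linarith
      have d0 : 0 ≤ -Real.log (1 / y ^ 2) := by
        rw [one_div, Real.log_inv, neg_neg]
        exact Real.log_nonneg (by linarith)
      have d2 := mul_le_mul (e1 V c) d1 d0 (by positivity)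
      have d3 : 4000 * X ^ 2 / y ^ 2 * s * (2 * y) = 8000 * (X ^ 2 / y) * s := by field_simp; ring
      have d4 : 1 / y ^ 2 * V.card ≤ X ^ 2 / y * s := by
        have := (h2 V c).2
        rw [← hX] at this
        calc 1 / y ^ 2 * V.card ≤ 1 / y * (X ^ 2 * s) := by
              gcongr
              exact this.trans (by gcongr)
          _ = _ := by ring
      rw [d3] at d2
      rw [e2] at d2 d4
      linarith
    · have : (0 : ℝ) ≤ 81 * s / (u * 2 ^ m) := by rw [hu]; positivity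
      rw [hu] at *
      linarith

end Pool.Agent.P.MP_ca07c0_co.Neg
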