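import Pool.Agent.P.MP_ca07c0_co.Neg.Key
import Pool.Agent.P.MP_ca07c0_co.Neg.Carve
import Pool.Agent.P.MP_ca07c0_co.Neg.Container

/-!
The cell structure of a container (helper file only).
-/

namespace Pool.Agent.P.MP_ca07c0_co.Neg

open Finset

theorem card_le_image_add (Y : Finset ℤ) (f : ℤ → ℤ) :
    Y.card ≤ (Y.image f).card + ((Y ×ˢ Y).filter fun p => p.1 ≠ p.2 ∧ f p.1 = f p.2).card := by
  have hm : ∀ y ∈ Y, Function.invFunOn f Y (f y) ∈ Y := fun y hy =>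
    Function.invFunOn_mem ⟨y, hy, rfl⟩
  have he : ∀ y ∈ Y, f (Function.invFunOn f Y (f y)) = f y := fun y hy =>
    Function.invFunOn_eq ⟨y, hy, rfl⟩
  rw [← card_filter_add_card_filter_not (s := Y) fun y => y = Function.invFunOn f Y (f y)]
  refine Nat.add_le_add ?_ ?_
  · refine card_le_card_of_injOn f (fun y hy => mem_image_of_mem _ (mem_filter.1 hy).1)
      fun y hy z hz h => ?_
    rw [(mem_filter.1 hy).2, (mem_filter.1 hz).2, h]
  · refine card_le_card_of_injOn (fun y => (y, Function.invFunOn f Y (f y))) (fun y hy => ?_)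
      fun y _ z _ h => (Prod.ext_iff.1 h).1
    obtain ⟨h1, h2⟩ := mem_filter.1 hy
    exact mem_filter.2 ⟨mem_product.2 ⟨h1, hm y h1⟩, h2, (he y h1).symm⟩

theorem sidon_hit {Y R : Finset ℤ} (hY : Sidon Y) (f : ℤ → ℤ)
    (hR : ∀ y ∈ Y, ∀ z ∈ Y, f y = f z → y - z ∈ R ∨ y + z ∈ R) :
    Y.card ≤ (Y.image f).card + 3 * R.card := by
  refine (card_le_image_add Y f).trans (Nat.add_le_add_left ?_ _)
  have hsub : ((Y ×ˢ Y).filter fun p => p.1 ≠ p.2 ∧ f p.1 = f p.2) ⊆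
      (R.biUnion fun r => (dif Y r).filter fun p => p.1 ≠ p.2) ∪ R.biUnion fun r => sm Y r := by
    intro p hp
    obtain ⟨h1, h2, h3⟩ := mem_filter.1 hp
    obtain ⟨h4, h5⟩ := mem_product.1 h1
    rcases hR _ h4 _ h5 h3 with h | h
    · exact mem_union_left _ (mem_biUnion.2 ⟨_, h, mem_filter.2 ⟨mem_dif.2 ⟨h4, h5, rfl⟩, h2⟩⟩)
    · exact mem_union_right _ (mem_biUnion.2 ⟨_, h, mem_sm.2 ⟨h4, h5, rfl⟩⟩)
  have a1 : ∀ r ∈ R, ((dif Y r).filter fun p => p.1 ≠ p.2).card ≤ 1 := fun r _ => by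
    refine card_le_one.2 fun p hp q hq => ?_
    obtain ⟨h1, h2⟩ := mem_filter.1 hp
    obtain ⟨h3, h4⟩ := mem_filter.1 hq
    obtain ⟨b1, b2, b3⟩ := mem_dif.1 h1
    obtain ⟨c1, c2, c3⟩ := mem_dif.1 h3
    rcases hY _ b1 _ c2 _ c1 _ b2 (by omega) with h | h
    · exact Prod.ext h.1 h.2.symm
    · exact absurd h.1 h2
  have a2 : ∀ r ∈ R, (sm Y r).card ≤ 2 := fun r _ => by
    rcases (sm Y r).eq_empty_or_nonempty with h | ⟨p, hp⟩
    · simp [h]
    · refine (card_le_card (t := {p, p.swap}) fun q hq => ?_).trans card_le_two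
      obtain ⟨b1, b2, b3⟩ := mem_sm.1 hp
      obtain ⟨c1, c2, c3⟩ := mem_sm.1 hq
      rw [mem_insert, mem_singleton]
      rcases hY _ c1 _ c2 _ b1 _ b2 (by omega) with h | h
      · exact Or.inl (Prod.ext h.1 h.2)
      · exact Or.inr (Prod.ext h.1 h.2)
  have h := (card_le_card hsub).trans ((card_union_le _ _).trans (Nat.add_le_add
    (card_biUnion_le_card_mul _ _ _ a1) (card_biUnion_le_card_mul _ _ _ a2)))
  omega

theorem trunc (U : Finset ℤ) (f : ℤ → ℤ) (k : ℕ) :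
    ∃ W ⊆ U, W.card = ∑ l ∈ U.image f, min (U.filter fun y => f y = l).card k ∧
      ∀ l, (W.filter fun y => f y = l).card ≤ k := by
  have h : ∀ l, ∃ T ⊆ U.filter fun y => f y = l,
      T.card = min (U.filter fun y => f y = l).card k := fun l =>
    exists_subset_card_eq (min_le_left _ _)
  choose T h1 h2 using h
  refine ⟨(U.image f).biUnion T, biUnion_subset.2 fun l _ => (h1 l).trans (filter_subset _ _),
    ?_, fun l => ?_⟩
  · rw [card_biUnion]
    · exact sum_congr rfl fun l _ => h2 l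
    · intro l _ l' _ hne
      exact disjoint_left.2 fun y a b =>
        hne ((mem_filter.1 (h1 l a)).2.symm.trans (mem_filter.1 (h1 l' b)).2)
  · refine (card_le_card (t := T l) fun y hy => ?_).trans ((h2 l).trans_le (min_le_right _ _))
    obtain ⟨a, b⟩ := mem_filter.1 hy
    obtain ⟨l', -, c⟩ := mem_biUnion.1 a
    rwa [← b, (mem_filter.1 (h1 l' c)).2]

theorem heavy_sets (W0 : Finset ℤ) {θ : ℝ} (hθ : 0 < θ) (D0 : ℕ)
    (hD : ((Sol W0).card : ℝ) ≤ D0 * θ ^ 2) :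
    ∃ Δ Sg : Finset ℤ, (0 : ℤ) ∈ Δ ∧ Δ.card ≤ D0 + 1 ∧ Sg.card ≤ D0 ∧
      (∀ d ∉ Δ, ((dif W0 d).card : ℝ) ≤ θ) ∧ ∀ c ∉ Sg, ((sm W0 c).card : ℝ) ≤ θ := by
  have h2 : 0 < θ ^ 2 := by positivity
  refine ⟨insert 0 (((W0 ×ˢ W0).image fun p => p.1 - p.2).filter fun d => θ < (dif W0 d).card),
    ((W0 ×ˢ W0).image fun p => p.1 + p.2).filter fun d => θ < (sm W0 d).card,
    mem_insert_self _ _, (card_insert_le _ _).trans (Nat.add_le_add_right ?_ _), ?_,
    fun d hd => ?_, fun d hd => ?_⟩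
  · have := (heavy_dif W0 (((W0 ×ˢ W0).image fun p => p.1 - p.2).filter
      fun d => θ < (dif W0 d).card) hθ.le fun d hd => (mem_filter.1 hd).2.le).trans hD
    exact_mod_cast le_of_mul_le_mul_right this h2
  · have := (heavy_sm W0 (((W0 ×ˢ W0).image fun p => p.1 + p.2).filter
      fun d => θ < (sm W0 d).card) hθ.le fun d hd => (mem_filter.1 hd).2.le).trans hD
    exact_mod_cast le_of_mul_le_mul_right this h2
  · by_contra hc
    push Not at hc
    have : (0 : ℝ) < (dif W0 d).card := hθ.trans hc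
    obtain ⟨p, hp⟩ := card_pos.1 (by exact_mod_cast this : 0 < (dif W0 d).card)
    obtain ⟨a, b, c⟩ := mem_dif.1 hp
    exact hd (mem_insert_of_mem (mem_filter.2 ⟨mem_image.2 ⟨p, mem_product.2 ⟨a, b⟩, c⟩, hc⟩))
  · by_contra hc
    push Not at hc
    have : (0 : ℝ) < (sm W0 d).card := hθ.trans hc
    obtain ⟨p, hp⟩ := card_pos.1 (by exact_mod_cast this : 0 < (sm W0 d).card)
    obtain ⟨a, b, c⟩ := mem_sm.1 hp
    exact hd (mem_filter.2 ⟨mem_image.2 ⟨p, mem_product.2 ⟨a, b⟩, c⟩, hc⟩)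

theorem trunc_bound {U W0 Δ Sg : Finset ℤ} {n h k : ℕ} {θ : ℝ} (f : ℤ → ℤ) (hk : 1 ≤ k)
    (hh : 0 < h) (hhn : 500 * h ≤ n) (hU : U ⊆ W0) (hn : ∀ x ∈ U, 0 ≤ x ∧ x < n)
    (h0 : (0 : ℤ) ∈ Δ) (hΔ : ∀ d ∉ Δ, ((dif W0 d).card : ℝ) ≤ θ)
    (hS : ∀ c ∉ Sg, ((sm W0 c).card : ℝ) ≤ θ)
    (hf : ∀ y ∈ U, ∀ z ∈ U, (y - z ∈ Δ ∨ y + z ∈ Sg) → f y = f z)
    (hX : ∀ x ∈ U, ∀ d ∈ Δ, ∀ c ∈ Sg, d + c ≠ 2 * x)
    (hL : ((Light W0 θ).card : ℝ) ≤ h / 1000) (hD : (Δ.card : ℝ) * U.card ≤ h / 1000) :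
    ((∑ l ∈ U.image f, min (U.filter fun y => f y = l).card k : ℕ) : ℝ) ^ 2 ≤
      1.002 * (k + 0.002) * n := by
  obtain ⟨W, hW, h1, h2⟩ := trunc U f k
  have h3 := key (W := W) hk hh (hW.trans hU) (fun x hx => hn x (hW hx)) h0 hΔ hS fun x hx => by
    rw [← card_union_of_disjoint]
    · refine (card_le_card fun z hz => ?_).trans (h2 (f x))
      rcases mem_union.1 hz with a | a
      · obtain ⟨b, c⟩ := mem_filter.1 a
        exact mem_filter.2 ⟨b, (hf x (hW hx) z (hW b) (Or.inl c)).symm⟩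
      · obtain ⟨b, c⟩ := mem_filter.1 a
        exact mem_filter.2 ⟨b, (hf x (hW hx) z (hW b) (Or.inr c)).symm⟩
    · exact disjoint_left.2 fun z a b =>
        hX x (hW hx) _ (mem_filter.1 a).2 _ (mem_filter.1 b).2 (by ring)
  rw [← h1]
  have hh' : (0 : ℝ) < h := by exact_mod_cast hh
  have a1 : (500 : ℝ) * h ≤ n := by exact_mod_cast hhn
  have a2 : (Δ.card : ℝ) * W.card ≤ Δ.card * U.card :=
    mul_le_mul_of_nonneg_left (by exact_mod_cast card_le_card hW) (Nat.cast_nonneg _)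
  have a3 : ((n : ℝ) + h) * (k * h + (Light W0 θ).card + Δ.card * W.card) ≤
      (1.002 * n) * ((k + 0.002) * h) :=
    mul_le_mul (by linarith) (by linarith) (by positivity) (by positivity)
  refine le_of_mul_le_mul_right (h3.trans (a3.trans (le_of_eq ?_))) hh'
  ring

theorem hit_le (j : ℕ) : 1 - (1 / 2 : ℝ) ^ j ≤ ((min j 1 : ℕ) + (min j 3 : ℕ)) / 4 := by
  rcases j with _ | _ | _ | j
  · norm_num
  · norm_num
  · norm_num
  · have e1 : min (j + 1 + 1 + 1) 1 = 1 := by omega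
    have e2 : min (j + 1 + 1 + 1) 3 = 3 := by omega
    rw [e1, e2]
    have : (0 : ℝ) ≤ (1 / 2) ^ (j + 1 + 1 + 1) := by positivity
    push_cast
    linarith

theorem cover_bounds {C : Finset ℤ} {δ lam : ℝ} (hδ : 0 ≤ δ) (hl : 0 < lam) (hl1 : lam ≤ 1)
    (hC : Cover Sidon C δ lam) :
    ∃ W0 ⊆ C, (C.card : ℝ) ≤ W0.card + 4 * δ * C.card ∧ ∀ θ : ℝ, 0 ≤ θ →
      ((Light W0 θ).card : ℝ) ≤ 24 * θ * (4 * δ * C.card * (4 / lam)) +
        512 * (4 * δ * C.card * (4 / lam) ^ 3) := by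
  obtain ⟨G, h1, h2⟩ := hC
  refine ⟨C.filter fun v => {v} ∉ G, filter_subset _ _, ?_, fun θ hθ => ?_⟩
  · have a1 := h2 0 (by norm_num)
    have a2 : (C.filter fun v => ¬ {v} ∉ G).card ≤ (G.filter fun T => T.card = 0 + 1).card := by
      refine card_le_card_of_injOn (fun v => {v}) (fun v hv => ?_) fun v _ w _ h =>
        singleton_injective h
      exact mem_filter.2 ⟨not_not.1 (mem_filter.1 hv).2, by simp⟩
    have a3 := card_filter_add_card_filter_not (s := C) fun v => {v} ∉ G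
    have a4 : (C.card : ℝ) ≤ (C.filter fun v => {v} ∉ G).card +
        (G.filter fun T => T.card = 0 + 1).card := by exact_mod_cast (by omega)
    rw [pow_zero, mul_one] at a1
    linarith
  · have a1 := light_le (filter_subset (fun v => {v} ∉ G) C) G h1
      (fun v hv => (mem_filter.1 hv).2) hθ
    have hc : 0 ≤ 4 * δ * C.card := by positivity
    have b : ∀ j ≤ 3, ((G.filter fun T => T.card = j + 1).card : ℝ) ≤
        4 * δ * C.card * (4 / lam) ^ j := fun j hj => by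
      have := mul_le_mul_of_nonneg_right (h2 j hj) (by positivity : 0 ≤ (4 / lam) ^ j)
      rwa [mul_assoc, ← mul_pow, show lam / 4 * (4 / lam) = 1 by field_simp, one_pow,
        mul_one] at this
    have b1 := b 1 (by norm_num)
    have b2 := b 2 (by norm_num)
    have b3 := b 3 (by norm_num)
    have c : (4 / lam) ^ 2 ≤ (4 / lam) ^ 3 :=
      pow_le_pow_right₀ (by rw [le_div_iff₀ hl]; linarith) (by norm_num)
    have c' := mul_le_mul_of_nonneg_left c hc
    rw [pow_one] at b1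
    have d := mul_le_mul_of_nonneg_left b1 (by positivity : 0 ≤ 24 * θ)
    norm_num at b1 b2 b3 d ⊢
    linarith

theorem struct {X δ lam : ℝ} (hX : 0 < X) (hδ : 0 < δ) (hδX : 4 * δ * X ≤ 1 / 1000)
    (hl : 0 < lam) (hl1 : lam ≤ 1) :
    ∃ s0 : ℕ, ∀ s ≥ s0, ∀ C : Finset ℤ, (∀ x ∈ C, 0 ≤ x ∧ x < (s ^ 2 : ℕ)) →
      (C.card : ℝ) ≤ X * s → Cover Sidon C δ lam → ∃ U ⊆ C, ∃ f : ℤ → ℤ,
        ∑ l ∈ U.image f, (1 - (1 / 2 : ℝ) ^ (U.filter fun y => f y = l).card) ≤ 0.6875 * s ∧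
        ∀ I ⊆ C, Sidon I → (I.card : ℝ) ≤ ((I ∩ U).image f).card + 0.003 * s := by
  obtain ⟨K, hK⟩ : ∃ K, K = 4 * δ * X * (4 / lam) ^ 3 := ⟨_, rfl⟩
  have K0 : 0 < K := by rw [hK]; positivity
  obtain ⟨t, ht⟩ : ∃ t, t = 1 / (48000000 * K) := ⟨_, rfl⟩
  have t0 : 0 < t := by rw [ht]; positivity
  have tK : t * K = 1 / 48000000 := by rw [ht]; field_simp
  obtain ⟨D0, hD0⟩ := exists_nat_ge ((2 * X ^ 2 + 24 * X * K + 512 * K) / t ^ 2)
  rw [div_le_iff₀ (by positivity)] at hD0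
  obtain ⟨Rb, hRb⟩ := carve_int (2 * D0 + 1) (by positivity : 0 < 1 / (1000 * X))
  obtain ⟨s0, hs0⟩ := exists_nat_ge (1024000000 * K + 1000 * ((D0 + 1) * D0 + 3 * Rb) +
    1000000 * ((D0 + 1) * X) + 1000)
  refine ⟨s0, fun s hs C hn hC hcov => ?_⟩
  have hs' : (s0 : ℝ) ≤ s := by exact_mod_cast hs
  have p1 : (0 : ℝ) ≤ (D0 + 1) * D0 + 3 * Rb := by positivity
  have p2 : (0 : ℝ) ≤ (D0 + 1) * X := by positivity
  have s1 : 1024000000 * K ≤ s := by linarith
  have s2 : (1000 : ℝ) * ((D0 + 1) * D0 + 3 * Rb) ≤ s := by linarith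
  have s3 : 1000000 * ((D0 + 1) * X) ≤ s := by linarith
  have s4 : (1000 : ℝ) ≤ s := by linarith
  have s5 : 1000 ≤ s := by exact_mod_cast s4
  have sp : (0 : ℝ) < s := by linarith
  obtain ⟨W0, hW0, w1, w2⟩ := cover_bounds hδ.le hl hl1 hcov
  have cW : (W0.card : ℝ) ≤ X * s := le_trans (by exact_mod_cast card_le_card hW0) hC
  have w3 : ∀ θ : ℝ, 0 ≤ θ → ((Light W0 θ).card : ℝ) ≤ 24 * θ * (K * s) + 512 * (K * s) := by
    intro θ hθ
    have c : (4 / lam) ^ 1 ≤ (4 / lam) ^ 3 :=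
      pow_le_pow_right₀ (by rw [le_div_iff₀ hl]; linarith) (by norm_num)
    rw [pow_one] at c
    have c1 : 4 * δ * C.card * (4 / lam) ^ 3 ≤ K * s := by
      calc _ ≤ 4 * δ * (X * s) * (4 / lam) ^ 3 := by gcongr
        _ = _ := by rw [hK]; ring
    have c2 : 4 * δ * C.card * (4 / lam) ≤ K * s :=
      le_trans (mul_le_mul_of_nonneg_left c (by positivity)) c1
    exact (w2 θ hθ).trans (add_le_add (mul_le_mul_of_nonneg_left c2 (by positivity))
      (by linarith))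
  have hSol : ((Sol W0).card : ℝ) ≤ D0 * (t * s) ^ 2 := by
    have a1 : ((Sol W0).card : ℝ) ≤ 2 * W0.card ^ 2 + (Light W0 W0.card).card := by
      exact_mod_cast sol_le W0
    have a2 := w3 W0.card (Nat.cast_nonneg _)
    have a3 : (W0.card : ℝ) ^ 2 ≤ (X * s) ^ 2 := by gcongr
    have a4 : 24 * W0.card * (K * s) ≤ 24 * (X * s) * (K * s) := by gcongr
    have a5 : K * s * 1 ≤ K * s * s := by gcongr; linarith
    have a6 := mul_le_mul_of_nonneg_right hD0 (by positivity : (0 : ℝ) ≤ s ^ 2)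
    calc ((Sol W0).card : ℝ) ≤ (2 * X ^ 2 + 24 * X * K + 512 * K) * s ^ 2 := by nlinarith
      _ ≤ _ := a6
      _ = _ := by ring
  obtain ⟨Δ, Sg, h0, d1, d2, d3, d4⟩ := heavy_sets W0 (by positivity : 0 < t * s) D0 hSol
  set X0 := (Δ ×ˢ Sg).image fun p => (p.1 + p.2) / 2 with hX0
  have cX0 : (X0.card : ℝ) ≤ (D0 + 1) * D0 := by
    have := (card_image_le (s := Δ ×ˢ Sg) (f := fun p => (p.1 + p.2) / 2)).trans
      ((card_product _ _).trans_le (Nat.mul_le_mul d1 d2))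
    exact_mod_cast this
  obtain ⟨J, hJ, f, R, c1, c2, c3, c4⟩ := hRb Δ Sg (W0 \ X0) ((card_union_le _ _).trans (by omega))
  set U := (W0 \ X0) \ J with hU
  have UW : U ⊆ W0 := sdiff_subset.trans sdiff_subset
  have cU : (U.card : ℝ) ≤ X * s := le_trans (by exact_mod_cast card_le_card UW) cW
  have cJ : (J.card : ℝ) ≤ s / 1000 := by
    have a : ((W0 \ X0).card : ℝ) ≤ X * s :=
      le_trans (by exact_mod_cast card_le_card sdiff_subset) cW
    calc (J.card : ℝ) ≤ 1 / (1000 * X) * (X * s) :=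
          c1.trans (mul_le_mul_of_nonneg_left a (by positivity))
      _ = s / 1000 := by field_simp
  have hs2 : 1000 ≤ s ^ 2 := by nlinarith
  have hh : ((s : ℝ)) ^ 2 ≤ 1000 * ((s ^ 2 / 500 : ℕ) : ℝ) := by
    exact_mod_cast (by omega : s ^ 2 ≤ 1000 * (s ^ 2 / 500))
  have tb : ∀ k : ℕ, 1 ≤ k →
      ((∑ l ∈ U.image f, min (U.filter fun y => f y = l).card k : ℕ) : ℝ) ^ 2 ≤
        1.002 * (k + 0.002) * s ^ 2 := fun k hk => by
    have := trunc_bound (n := s ^ 2) (h := s ^ 2 / 500) f hk (by omega) (by omega) UW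
      (fun x hx => hn x (hW0 (UW hx))) h0 d3 d4 c3
      (fun x hx d hd c hc e => (mem_sdiff.1 (mem_sdiff.1 hx).1).2
        (mem_image.2 ⟨(d, c), mem_product.2 ⟨hd, hc⟩, by simp only; omega⟩))
      (by
        have a1 := w3 (t * s) (by positivity)
        have a2 : 24 * (t * s) * (K * s) = s ^ 2 / 2000000 := by
          calc _ = 24 * (t * K) * s ^ 2 := by ring
            _ = _ := by rw [tK]; ring
        have a3 := mul_le_mul_of_nonneg_right s1 sp.le
        nlinarith)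
      (by
        have a1 : (Δ.card : ℝ) ≤ D0 + 1 := by exact_mod_cast d1
        have a2 : (Δ.card : ℝ) * U.card ≤ (D0 + 1) * (X * s) := by gcongr
        have a3 := mul_le_mul_of_nonneg_right s3 sp.le
        nlinarith)
    exact_mod_cast this
  refine ⟨U, UW.trans hW0, f, ?_, fun I hI hS => ?_⟩
  · have a1 : ((∑ l ∈ U.image f, min (U.filter fun y => f y = l).card 1 : ℕ) : ℝ) ≤ 1.01 * s :=
      abs_le_of_sq_le_sq' ((tb 1 le_rfl).trans (by push_cast; nlinarith)) (by positivity) |>.2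
    have a3 : ((∑ l ∈ U.image f, min (U.filter fun y => f y = l).card 3 : ℕ) : ℝ) ≤ 1.74 * s :=
      abs_le_of_sq_le_sq' ((tb 3 (by norm_num)).trans (by push_cast; nlinarith))
        (by positivity) |>.2
    refine (sum_le_sum fun l _ => hit_le _).trans ?_
    rw [← sum_div, sum_add_distrib]
    rw [Nat.cast_sum] at a1 a3
    linarith
  · have a1 := sidon_hit (Sidon.mono _ _ (inter_subset_left (s₂ := U)) hS) f
      fun y hy z hz => c4 y (mem_inter.1 hy).2 z (mem_inter.1 hz).2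
    have a2 : I.card ≤ (I ∩ U).card + (C \ U).card := by
      rw [← card_inter_add_card_sdiff I U]
      exact Nat.add_le_add_left (card_le_card (sdiff_subset_sdiff hI Subset.rfl)) _
    have a3 := card_sdiff_add_card_eq_card (UW.trans hW0)
    have a4 := card_sdiff_add_card_eq_card hJ
    have a5 := le_card_sdiff X0 W0
    have a6 : I.card + W0.card ≤ ((I ∩ U).image f).card + 3 * Rb + C.card + X0.card + J.card := by
      rw [← hU] at a4
      omega
    have a7 : (I.card : ℝ) + W0.card ≤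
        ((I ∩ U).image f).card + 3 * Rb + C.card + X0.card + J.card := by exact_mod_cast a6
    have a8 : 4 * δ * C.card ≤ s / 1000 := by
      calc 4 * δ * C.card ≤ 4 * δ * (X * s) := by gcongr
        _ = 4 * δ * X * s := by ring
        _ ≤ 1 / 1000 * s := by gcongr
        _ = _ := by ring
    linarith

end Pool.Agent.P.MP_ca07c0_co.Neg
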